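import Pool.Agent.H27.Z12.CTDefs

/-!
Kernel evaluation of a cover of the 6 x 6 sign matrices up to permutations, complements and the
transposition (MP_1e71f9_co).
-/

set_option autoImplicit false

namespace Pool.Agent.H6.Z12

open Pool.Agent.H28.Z12.Cov Pool.Agent.H27.Z12.CT

/-- The transpose of a full matrix, by diagonals. -/
def trn (X : Nat) : Nat :=
  Nat.lor (Nat.lor (Nat.lor
    (Nat.land X (nat_lit 34630287489))
    (Nat.shiftLeft (Nat.land X (nat_lit 541098242)) (nat_lit 5)))
    (Nat.lor (Nat.shiftLeft (Nat.land X (nat_lit 8454660)) (nat_lit 10))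
      (Nat.shiftLeft (Nat.land X (nat_lit 132104)) (nat_lit 15))))
    (Nat.lor (Nat.lor (Nat.lor (Nat.shiftLeft (Nat.land X (nat_lit 2064)) (nat_lit 20))
      (Nat.shiftLeft (Nat.land X (nat_lit 32)) (nat_lit 25)))
      (Nat.lor (Nat.shiftRight (Nat.land X (nat_lit 17315143744)) (nat_lit 5))
        (Nat.shiftRight (Nat.land X (nat_lit 8657571840)) (nat_lit 10))))
      (Nat.lor (Nat.shiftRight (Nat.land X (nat_lit 4328783872)) (nat_lit 15))
        (Nat.lor (Nat.shiftRight (Nat.land X (nat_lit 2164260864)) (nat_lit 20))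
          (Nat.shiftRight (Nat.land X (nat_lit 1073741824)) (nat_lit 25)))))

/-- One certificate of a full matrix or of its transpose (bit 47). -/
noncomputable def clT (Q : Nat → Nat) (X d c : Nat) : Bool :=
  sel (Nat.land (Nat.shiftRight c (nat_lit 47)) (nat_lit 1))
    (fo (fun e => clE Q X d e) (Nat.land c (nat_lit 140737488355327)))
    (fo (fun e => fo (fun Y => clE Q Y d e) (trn X)) (Nat.land c (nat_lit 140737488355327)))

/-- Certificate `r` of `C`, 48 bits. -/
def c48 (C r : Nat) : Nat :=
  Nat.land (Nat.shiftRight C (Nat.mul (nat_lit 48) r)) (nat_lit 281474976710655)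

/-- The matrix `X` and its complement with both signs. -/
noncomputable def clTK (Q : Nat → Nat) (X C : Nat) : Bool :=
  band (band (fo (fun c => clT Q X (nat_lit 0) c) (c48 C (nat_lit 0)))
      (fo (fun c => clT Q X (nat_lit 1) c) (c48 C (nat_lit 1))))
    (fo (fun X' => band (fo (fun c => clT Q X' (nat_lit 0) c) (c48 C (nat_lit 2)))
      (fo (fun c => clT Q X' (nat_lit 1) c) (c48 C (nat_lit 3)))) (cpl X))

/-- The matrices `a, .., a + n - 1` of the table `K`. -/
noncomputable def clsT (K Q : Nat → Nat) (a C : Nat) (n : Nat) : Bool :=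
  @Nat.rec (fun _ => Bool) true (fun i ih => band ih
    (fo (fun X => fo (fun C' => clTK Q X C')
      (Nat.land (Nat.shiftRight C (Nat.mul (nat_lit 192) i))
        (nat_lit 6277101735386680763835789423207666416102355444464034512895))) (K (Nat.add a i)))) n

end Pool.Agent.H6.Z12
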