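import Mathlib
import Pool.Agent.H27.Z12.CTX

/-!
A configuration and its dual: one chart for both (MP_1e71f9_co).
-/

set_option autoImplicit false

namespace Pool.Agent.H6.Z12

open Finset Matrix Pool.Agent.H67.Nu Pool.Agent.H77.Z12

/-- The chart `(I | M)`, `M > 0`, with the change of coordinates. -/
theorem exists_chart_rel {r m : ℕ} (v : Fin (r + m) → Fin r → ℝ) (h : Gen v) (hr : 1 ≤ r)
    (hm : 1 ≤ m) :
    ∃ (M : Fin r → Fin m → ℝ) (A : Matrix (Fin r) (Fin r) ℝ) (π : Fin (r + m) ≃ Fin (r + m))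
      (ε : Fin (r + m) → Bool), (∀ i c, 0 < M i c) ∧ A.det ≠ 0 ∧
      ∀ j, sg (ε j) • v (π j) = cfg M j ᵥ* A := by
  classical
  obtain ⟨B, Q, hB, h1, h2, h3⟩ := exists_simplicial h hr (by omega)
  -- the enumeration
  have hBc : Bᶜ.card = m := by
    rw [Finset.card_compl, Fintype.card_fin, hB]; omega
  let eB : Fin r ≃ B := (Finset.equivFinOfCardEq hB).symm
  let eC : Fin m ≃ (Bᶜ : Finset (Fin (r + m))) := (Finset.equivFinOfCardEq hBc).symm
  have hb0 : ∃ b0, b0 ∈ B := by
    have : 0 < B.card := by omega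
    exact Finset.card_pos.1 this
  obtain ⟨b0, hb0⟩ := hb0
  let F : Fin (r + m) → Fin (r + m) :=
    Fin.addCases (fun i => ((eB i : B) : Fin (r + m))) fun c => ((eC c : _) : Fin (r + m))
  have hF : Function.Injective F := by
    intro a b
    refine Fin.addCases (fun i => ?_) (fun c => ?_) a <;>
      refine Fin.addCases (fun i' => ?_) (fun c' => ?_) b <;> intro hab
    · simp only [F, Fin.addCases_left] at hab
      rw [eB.injective (Subtype.ext hab)]
    · simp only [F, Fin.addCases_left, Fin.addCases_right] at hab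
      have := Finset.mem_compl.1 (eC c').2
      rw [← hab] at this
      exact absurd (eB i).2 this
    · simp only [F, Fin.addCases_left, Fin.addCases_right] at hab
      have := Finset.mem_compl.1 (eC c).2
      rw [hab] at this
      exact absurd (eB i').2 this
    · simp only [F, Fin.addCases_right] at hab
      rw [eC.injective (Subtype.ext hab)]
  let π : Fin (r + m) ≃ Fin (r + m) := Equiv.ofBijective F ⟨hF, Finite.surjective_of_injective hF⟩
  have hπl : ∀ i, π (Fin.castAdd m i) = (eB i : B) := fun i => by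
    show F _ = _
    simp only [F, Fin.addCases_left]
  have hπr : ∀ c, π (Fin.natAdd r c) = (eC c : (Bᶜ : Finset (Fin (r + m)))) := fun c => by
    show F _ = _
    simp only [F, Fin.addCases_right]
  -- signs
  let τ : Fin (r + m) → Bool := fun k =>
    if k ∈ B then decide (0 < Q k ⬝ᵥ v k) else decide (0 < Q b0 ⬝ᵥ v k)
  have hsgd : ∀ x : ℝ, x ≠ 0 → sg (decide (0 < x)) * x = |x| := by
    intro x hx
    rcases lt_or_gt_of_ne hx with h0 | h0
    · have : ¬ 0 < x := not_lt.2 h0.le
      simp [sg, this, abs_of_neg h0]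
    · simp [sg, h0, abs_of_pos h0]
  have hQk : ∀ k ∉ B, ∀ b ∈ B, Q b ⬝ᵥ v k ≠ 0 := fun k hk b hb h0 => by
    have := h3 k hk b hb b hb
    rw [h0] at this
    simp at this
  have hτB : ∀ b ∈ B, sg (τ b) * (Q b ⬝ᵥ v b) = |Q b ⬝ᵥ v b| := by
    intro b hb
    simp only [τ, hb, if_true]
    exact hsgd _ (h2 b hb)
  have hτC : ∀ k ∉ B, ∀ b ∈ B, sg (τ k) * (Q b ⬝ᵥ v k) = |Q b ⬝ᵥ v k| := by
    intro k hk b hb
    simp only [τ, hk, if_false]
    have h4 := h3 k hk b0 hb0 b hb
    have h5 : decide (0 < Q b0 ⬝ᵥ v k) = decide (0 < Q b ⬝ᵥ v k) := by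
      rcases lt_or_gt_of_ne (hQk k hk b0 hb0) with h0 | h0
      · have h6 : Q b ⬝ᵥ v k < 0 := by
          by_contra h7
          nlinarith [not_lt.1 h7]
        rw [decide_eq_false (not_lt.2 h0.le), decide_eq_false (not_lt.2 h6.le)]
      · have h6 : 0 < Q b ⬝ᵥ v k := by
          by_contra h7
          nlinarith [not_lt.1 h7]
        rw [decide_eq_true h0, decide_eq_true h6]
    rw [h5]
    exact hsgd _ (hQk k hk b hb)
  -- the matrix
  let M : Fin r → Fin m → ℝ := fun i c =>
    |Q (eB i) ⬝ᵥ v (eC c)| / |Q (eB i) ⬝ᵥ v (eB i)|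
  have hMpos : ∀ i c, 0 < M i c := by
    intro i c
    have hc := Finset.mem_compl.1 (eC c).2
    exact div_pos (abs_pos.2 (hQk _ hc _ (eB i).2)) (abs_pos.2 (h2 _ (eB i).2))
  -- the change of basis
  let A : Matrix (Fin r) (Fin r) ℝ := Matrix.of fun i k => sg (τ (eB i)) * v (eB i) k
  have hA : A.det ≠ 0 := by
    have h4 := h (fun i => ((eB i : B) : Fin (r + m))) fun a b hab =>
      eB.injective (Subtype.ext hab)
    have h5 := Matrix.det_mul_column (fun i => sg (τ (eB i)))
      (Matrix.of fun i => v ((eB i : B) : Fin (r + m)))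
    have h6 : (∏ i, sg (τ ((eB i : B) : Fin (r + m)))) ≠ 0 :=
      Finset.prod_ne_zero_iff.2 fun i _ => sg_ne_zero _
    have h7 : A.det = (Matrix.of fun i k => sg (τ (eB i)) *
      (Matrix.of fun i => v ((eB i : B) : Fin (r + m))) i k).det := rfl
    rw [h7, h5]
    exact mul_ne_zero h6 h4
  let ε : Fin (r + m) → Bool := fun j => τ (π j)
  have hrel : ∀ j, sg (ε j) • v (π j) = cfg M j ᵥ* A := by
    intro j
    refine Fin.addCases (fun i => ?_) (fun c => ?_) j
    · -- a unit vector
      have e1 : cfg M (Fin.castAdd m i) = Pi.single i 1 := by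
        simp only [cfg, Fin.addCases_left]
      rw [e1, Matrix.single_one_vecMul]
      funext k
      simp only [ε, hπl, Pi.smul_apply, smul_eq_mul]
      rfl
    · -- a column of `M`
      have hc := Finset.mem_compl.1 (eC c).2
      obtain ⟨a, ha⟩ := h.span hB (v (eC c))
      have hQa : ∀ b ∈ B, Q b ⬝ᵥ v (eC c) = a b * (Q b ⬝ᵥ v b) := by
        intro b hb
        conv_lhs => rw [ha]
        rw [dotProduct_sum, Finset.sum_eq_single_of_mem b hb]
        · rw [dotProduct_smul, smul_eq_mul]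
        · intro b' hb' hne
          rw [dotProduct_smul, h1 b hb b' hb' hne, smul_zero]
      have hab : ∀ b ∈ B, sg (τ (eC c)) * a b =
          (|Q b ⬝ᵥ v (eC c)| / |Q b ⬝ᵥ v b|) * sg (τ b) := by
        intro b hb
        have h4 := hQa b hb
        have h5 := hτC _ hc b hb
        have h6 := hτB b hb
        have h7 : |Q b ⬝ᵥ v b| ≠ 0 := abs_ne_zero.2 (h2 b hb)
        rw [← h5, h4, div_mul_eq_mul_div, eq_div_iff h7, ← h6]
        ring
      have e1 : cfg M (Fin.natAdd r c) = fun i => M i c := by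
        simp only [cfg, Fin.addCases_right]
      rw [e1]
      funext k
      simp only [ε, hπr, Pi.smul_apply, smul_eq_mul]
      have e2 : v (eC c) k = ∑ b ∈ B, a b * v b k := by
        conv_lhs => rw [ha]
        rw [Finset.sum_apply]
        rfl
      rw [e2, Finset.mul_sum]
      simp only [Matrix.vecMul, dotProduct]
      rw [← Finset.sum_coe_sort B, ← eB.sum_comp]
      refine Finset.sum_congr rfl fun i _ => ?_
      show sg (τ (eC c)) * (a (eB i) * v (eB i) k) = M i c * (sg (τ (eB i)) * v (eB i) k)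
      rw [← mul_assoc, hab _ (eB i).2]
      show _ = (|Q (eB i) ⬝ᵥ v (eC c)| / |Q (eB i) ⬝ᵥ v (eB i)|) * _
      ring
  exact ⟨M, A, π, ε, hMpos, hA, hrel⟩

/-- Dual configurations (Gale transforms up to nonzero multiples). -/
def Dual {n r m : ℕ} (v : Fin n → Fin r → ℝ) (w : Fin n → Fin m → ℝ) : Prop :=
  ∃ l : Fin n → ℝ, (∀ i, l i ≠ 0) ∧ ∀ a b, ∑ i, l i * v i a * w i b = 0

theorem tope_of_smul {n r : ℕ} {v : Fin n → Fin r → ℝ} {c : Fin n → ℝ} (hc : ∀ i, 0 < c i)
    {s : Fin n → Bool} (h : Tope (fun i => c i • v i) s) : Tope v s := by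
  obtain ⟨y, hy⟩ := h
  refine ⟨y, fun j => ?_⟩
  have h1 := hy j
  rw [dotProduct_smul, smul_eq_mul] at h1
  have h2 : 0 < c j * (sg (s j) * (y ⬝ᵥ v j)) := by
    calc (0 : ℝ) < _ := h1
      _ = _ := by ring
  exact (pos_iff_pos_of_mul_pos h2).1 (hc j)

theorem bad_smul {v : Fin 12 → Fin 6 → ℝ} {c : Fin 12 → ℝ} (hc : ∀ i, 0 < c i) (h : Bad v) :
    Bad fun i => c i • v i := by
  refine ⟨fun f hf h0 => ?_, fun s hs => h.2 s ⟨tope_of_smul hc hs.1, fun j => tope_of_smul hc (hs.2 j)⟩⟩
  have h1 := h.1 f hf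
  have h2 := Matrix.det_mul_column (fun i => c (f i)) (Matrix.of fun i => v (f i))
  have h3 : (Matrix.of fun i => c (f i) • v (f i)) =
      Matrix.of fun i k => c (f i) * (Matrix.of fun i => v (f i)) i k := rfl
  rw [h3, h2] at h0
  exact mul_ne_zero (Finset.prod_ne_zero_iff.2 fun i _ => (hc _).ne') h1 h0

theorem cb_inj' {a b : Fin 6} (h : cb a = cb b) : a = b := by
  have := congrArg Fin.val h
  rw [cb_val, cb_val] at this
  exact Fin.ext (by omega)

/-- The exchange of the two halves. -/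
def sw : Fin 12 ≃ Fin 12 where
  toFun := Fin.addCases (m := 6) (n := 6) (fun a => cb a) fun b => ra b
  invFun := Fin.addCases (m := 6) (n := 6) (fun a => cb a) fun b => ra b
  left_inv := by decide
  right_inv := by decide

theorem sw_ra (a : Fin 6) : sw (ra a) = cb a := by revert a; decide

theorem sw_cb (a : Fin 6) : sw (cb a) = ra a := by revert a; decide

theorem fin12_cases {P : Fin 12 → Prop} (h1 : ∀ a, P (ra a)) (h2 : ∀ b, P (cb b)) (j : Fin 12) :
    P j := by
  refine Fin.addCases (m := 6) (n := 6) (fun a => ?_) (fun b => ?_) j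
  · exact h1 a
  · exact h2 b

theorem sum12 {f : Fin 12 → ℝ} : ∑ j, f j = ∑ a, f (ra a) + ∑ b, f (cb b) :=
  Fin.sum_univ_add (a := 6) (b := 6) f

/-- **One chart for a configuration and its dual.** -/
theorem dual_chart {v w : Fin 12 → Fin 6 → ℝ} (hd : Dual v w) (hv : Bad v) (hw : Bad w) :
    ∃ M : Fin 6 → Fin 6 → ℝ, (∀ i c, 0 < M i c) ∧ Bad (cf M) ∧ Bad (cf fun i c => M c i) := by
  obtain ⟨M, A, π, ε, hM, hA, hrel⟩ := exists_chart_rel (r := 6) (m := 6) v hv.1
    (by norm_num) (by norm_num)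
  obtain ⟨l, hl, hsum⟩ := hd
  refine ⟨M, hM, hv.transfer hA hrel, ?_⟩
  -- the relation in the chart
  let c : Fin 12 → ℝ := fun j => l (π j) * sg (ε j)
  have hc : ∀ j, c j ≠ 0 := fun j => mul_ne_zero (hl _) (sg_ne_zero _)
  have h1 : ∀ a b : Fin 6, ∑ j, c j * (cf M j) a * w (π j) b = 0 := by
    have hu : IsUnit A.det := isUnit_iff_ne_zero.2 hA
    -- the vector of the sums times `A` vanishes
    intro a b
    have h2 : (fun a => ∑ j, c j * (cf M j) a * w (π j) b) ᵥ* A = 0 := by
      funext k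
      rw [Matrix.vecMul, dotProduct]
      have e : ∀ x : Fin 6, (∑ j, c j * (cf M j) x * w (π j) b) * A x k =
          ∑ j, c j * w (π j) b * ((cf M j) x * A x k) := by
        intro x
        rw [Finset.sum_mul]
        exact Finset.sum_congr rfl fun j _ => by ring
      simp only [e]
      rw [Finset.sum_comm]
      have e2 : ∀ j : Fin 12, ∑ x, c j * w (π j) b * ((cf M j) x * A x k) =
          l (π j) * v (π j) k * w (π j) b := by
        intro j
        rw [← Finset.mul_sum]
        have e3 : ∑ x, (cf M j) x * A x k = sg (ε j) * v (π j) k := by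
          have := congrFun (hrel j) k
          rw [Pi.smul_apply, smul_eq_mul] at this
          rw [this]
          rfl
        rw [e3]
        have e4 := sg_mul_self (ε j)
        calc l (π j) * sg (ε j) * w (π j) b * (sg (ε j) * v (π j) k)
            = (sg (ε j) * sg (ε j)) * (l (π j) * v (π j) k * w (π j) b) := by ring
          _ = _ := by rw [e4, one_mul]
      simp only [e2]
      rw [Equiv.sum_comp π fun i => l i * v i k * w i b]
      exact hsum k b
    have h3 := congrArg (fun x => x ᵥ* A⁻¹) h2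
    simp only [Matrix.vecMul_vecMul, Matrix.mul_nonsing_inv A hu, Matrix.vecMul_one,
      Matrix.zero_vecMul] at h3
    exact congrFun h3 a
  -- the new basis
  let B : Matrix (Fin 6) (Fin 6) ℝ := Matrix.of fun b k => c (cb b) * w (π (cb b)) k
  have hB : B.det ≠ 0 := by
    have h4 := hw.1 (fun b => π (cb b)) fun a b hab => cb_inj' (π.injective hab)
    have h5 := Matrix.det_mul_column (fun b => c (cb b)) (Matrix.of fun b => w (π (cb b)))
    have h6 : B.det = (Matrix.of fun b k => c (cb b) *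
      (Matrix.of fun b => w (π (cb b))) b k).det := rfl
    rw [h6, h5]
    exact mul_ne_zero (Finset.prod_ne_zero_iff.2 fun i _ => hc _) h4
  have hrow : ∀ a k : Fin 6, -(c (ra a)) * w (π (ra a)) k = ∑ b, M a b * B b k := by
    intro a k
    have h4 := h1 a k
    rw [sum12] at h4
    have h5 : ∑ x, c (ra x) * (cf M (ra x)) a * w (π (ra x)) k = c (ra a) * w (π (ra a)) k := by
      rw [Finset.sum_eq_single a]
      · rw [cf_ra, Pi.single_eq_same, mul_one]
      · intro x _ hx
        rw [cf_ra, Pi.single_eq_of_ne (Ne.symm hx), mul_zero, zero_mul]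
      · intro h
        exact absurd (Finset.mem_univ _) h
    have h6 : ∑ b, c (cb b) * (cf M (cb b)) a * w (π (cb b)) k = ∑ b, M a b * B b k := by
      refine Finset.sum_congr rfl fun b _ => ?_
      rw [cf_cb]
      show c (cb b) * M a b * w (π (cb b)) k = M a b * (c (cb b) * w (π (cb b)) k)
      ring
    rw [h5, h6] at h4
    linarith
  -- the scalars
  let κ : Fin 12 → ℝ := Fin.addCases (m := 6) (n := 6) (fun b => c (cb b)) fun a => -(c (ra a))
  have hκr : ∀ b, κ (ra b) = c (cb b) := fun b => by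
    simp only [κ, ra]
    exact Fin.addCases_left _
  have hκc : ∀ a, κ (cb a) = -(c (ra a)) := fun a => by
    simp only [κ, cb]
    exact Fin.addCases_right _
  have hκ : ∀ j, κ j ≠ 0 := by
    refine fin12_cases (fun b => ?_) fun a => ?_
    · rw [hκr]; exact hc _
    · rw [hκc]; exact neg_ne_zero.2 (hc _)
  let π' : Fin 12 ≃ Fin 12 := sw.trans π
  let w' : Fin 12 → Fin 6 → ℝ := fun i => |κ (π'.symm i)| • w i
  have hw' : Bad w' := bad_smul (fun i => abs_pos.2 (hκ _)) hw
  refine Bad.transfer (A := B) (π := π') (ε := fun j => decide (0 < κ j)) hB ?_ hw'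
  intro j
  have hs : ∀ x : ℝ, x ≠ 0 → sg (decide (0 < x)) * |x| = x := by
    intro x hx
    rcases lt_or_gt_of_ne hx with h0 | h0
    · have : ¬ 0 < x := not_lt.2 h0.le
      simp [sg, this, abs_of_neg h0]
    · simp [sg, h0, abs_of_pos h0]
  have e1 : sg (decide (0 < κ j)) • w' (π' j) = κ j • w (π' j) := by
    show sg (decide (0 < κ j)) • |κ (π'.symm (π' j))| • w (π' j) = _
    rw [π'.symm_apply_apply, smul_smul, hs _ (hκ j)]
  rw [e1]
  revert j
  refine fin12_cases (fun b => ?_) fun a => ?_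
  · intro _
    rw [hκr, cf_ra, Matrix.single_one_vecMul]
    show c (cb b) • w (π (sw (ra b))) = B b
    rw [sw_ra]
    rfl
  · intro _
    rw [hκc, cf_cb]
    show -(c (ra a)) • w (π (sw (cb a))) = _
    rw [sw_cb]
    funext k
    rw [Pi.smul_apply, smul_eq_mul, hrow]
    rfl

end Pool.Agent.H6.Z12
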