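import Mathlib
import Pool.Agent.H28.Z12.PCovR

/-!
The constant rank (MP_1e71f9_co).
-/

set_option autoImplicit false

namespace Pool.Agent.H6.Z12

open Pool.Agent.H77.Z12 Pool.Agent.H13.Z12 Pool.Agent.H28.Z12

/-- No rank. -/
def R0 (_ : St36) : ℕ := 0

theorem maxOf0 (r : ℕ) : MaxOf R0 r := fun _ _ _ => Nat.zero_le _

end Pool.Agent.H6.Z12
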