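import Mathlib
import Pool.Agent.H6.Z12.Dual
import Pool.Agent.H6.Z12.DCDefs
import Pool.Agent.H6.Z12.RZero

/-!
No pair of dual bad configurations from a cover of the 6 x 6 sign matrices up to permutations,
complements and the transposition (MP_1e71f9_co).
-/

set_option autoImplicit false

namespace Pool.Agent.H6.Z12

open Pool.Agent.H77.Z12 Pool.Agent.H13.Z12 Pool.Agent.H28.Z12 Pool.Agent.H28.Z12.Cov
open Pool.Agent.H28.Z12.TR Pool.Agent.H27.Z12.CT

/-- The state of the transposed matrix. -/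
def trS (s : St36) : St36 := (fun k j => s.1 j k, s.2)

theorem trS_act (ρ γ : Equiv.Perm (Fin 6)) (s : St36) :
    trS (actS ρ γ s) = actS γ ρ (trS s) := by
  refine Prod.ext rfl ?_
  show xor s.2 (xor (par ρ) (par γ)) = xor s.2 (xor (par γ) (par ρ))
  rw [Bool.xor_comm (par ρ)]

attribute [local irreducible] chiN topN sigma

theorem stt_tr {M : Fin 6 → Fin 6 → ℝ} (h : Gen (cf M)) (h' : Gen (cf fun i c => M c i)) :
    stt (fun i c => M c i) = trS (stt M) := by
  have hT : (Matrix.of fun i c => M c i) = (Matrix.of M).transpose := rfl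
  refine Prod.ext ?_ ?_
  · funext k j
    have h1 := sigma_pos h' k j
    have h2 := sigma_pos h j k
    rw [hT, ← Matrix.transpose_nonsing_inv, Matrix.transpose_apply] at h1
    exact sg_eq_of_mul_pos h1 h2
  · have h1 := det_pos h'
    have h2 := det_pos h
    rw [hT, Matrix.det_transpose] at h1
    have e0 : (stt fun i c => M c i).2 = chiN (cf fun i c => M c i) 4032 := by
      unfold stt
      rfl
    have e1 : (trS (stt M)).2 = chiN (cf M) 4032 := by
      unfold stt trS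
      rfl
    rw [e0, e1]
    exact sg_eq_of_mul_pos h1 h2

theorem trn_eq (X : ℕ) : trn X = (((X &&& 34630287489) ||| ((X &&& 541098242) <<< 5)) |||
    (((X &&& 8454660) <<< 10) ||| ((X &&& 132104) <<< 15))) |||
    ((((X &&& 2064) <<< 20 ||| (X &&& 32) <<< 25) |||
      ((X &&& 17315143744) >>> 5 ||| (X &&& 8657571840) >>> 10)) |||
      ((X &&& 4328783872) >>> 15 ||| ((X &&& 2164260864) >>> 20 |||
        (X &&& 1073741824) >>> 25))) := rfl

/-- The bits of the transpose. -/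
def tbe (f : ℕ → Bool) (i : ℕ) : Bool :=
  (((f i && Nat.testBit 34630287489 i) ||
    (decide (i ≥ 5) && (f (i - 5) && Nat.testBit 541098242 (i - 5)))) ||
    ((decide (i ≥ 10) && (f (i - 10) && Nat.testBit 8454660 (i - 10))) ||
      (decide (i ≥ 15) && (f (i - 15) && Nat.testBit 132104 (i - 15))))) ||
    ((((decide (i ≥ 20) && (f (i - 20) && Nat.testBit 2064 (i - 20))) ||
      (decide (i ≥ 25) && (f (i - 25) && Nat.testBit 32 (i - 25)))) ||
      ((f (5 + i) && Nat.testBit 17315143744 (5 + i)) ||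
        (f (10 + i) && Nat.testBit 8657571840 (10 + i)))) ||
      ((f (15 + i) && Nat.testBit 4328783872 (15 + i)) ||
        ((f (20 + i) && Nat.testBit 2164260864 (20 + i)) ||
          (f (25 + i) && Nat.testBit 1073741824 (25 + i)))))

theorem trn_tbe (X i : ℕ) : (trn X).testBit i = tbe X.testBit i := by
  rw [trn_eq]
  simp only [Nat.testBit_or, Nat.testBit_and, Nat.testBit_shiftLeft, Nat.testBit_shiftRight]
  rfl

theorem tbe_val (f : ℕ → Bool) (k j : Fin 6) : tbe f (6 * k + j) = f (6 * j + k) := by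
  unfold tbe
  fin_cases k <;> fin_cases j <;> simp [Nat.testBit]

theorem trn_tb (X : ℕ) (k j : Fin 6) :
    (trn X).testBit (6 * k + j) = X.testBit (6 * j + k) := by
  rw [trn_tbe, tbe_val]

theorem trn_lt (X : ℕ) : trn X < 2 ^ 36 := by
  refine Nat.lt_pow_two_of_testBit _ fun i hi => ?_
  rw [trn_tbe]
  have h : ∀ m < 2 ^ 36, ∀ k, 36 ≤ k → Nat.testBit m k = false := fun m hm k hk =>
    Nat.testBit_lt_two_pow (lt_of_lt_of_le hm (Nat.pow_le_pow_right (by norm_num) hk))
  have g : ∀ m d, m < 2 ^ (36 - d) → d ≤ 36 → Nat.testBit m (i - d) = false := fun m d hm hd =>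
    Nat.testBit_lt_two_pow (lt_of_lt_of_le hm (Nat.pow_le_pow_right (by norm_num) (by omega)))
  unfold tbe
  rw [h 34630287489 (by norm_num) i hi, g 541098242 5 (by norm_num) (by norm_num),
    g 8454660 10 (by norm_num) (by norm_num), g 132104 15 (by norm_num) (by norm_num),
    g 2064 20 (by norm_num) (by norm_num), g 32 25 (by norm_num) (by norm_num),
    h 17315143744 (by norm_num) _ (by omega), h 8657571840 (by norm_num) _ (by omega),
    h 4328783872 (by norm_num) _ (by omega), h 2164260864 (by norm_num) _ (by omega),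
    h 1073741824 (by norm_num) _ (by omega)]
  simp

theorem pk_tr (s : St36) : pk 6 (trS s) = trn (pk 6 s) := by
  apply Nat.eq_of_testBit_eq
  intro i
  by_cases hi : i < 36
  · have hk : i / 6 < 6 := by omega
    have hj : i % 6 < 6 := by omega
    have e : i = 6 * ((⟨i / 6, hk⟩ : Fin 6) : ℕ) + ((⟨i % 6, hj⟩ : Fin 6) : ℕ) := by
      show i = 6 * (i / 6) + i % 6
      omega
    rw [e, trn_tb, pk_val _ _ _ _ hk, pk_val _ _ _ _ hj]
    rfl
  · rw [Nat.testBit_lt_two_pow (lt_of_lt_of_le (pk_lt 6 _)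
      (Nat.pow_le_pow_right (by norm_num) (not_lt.1 hi))),
      Nat.testBit_lt_two_pow (lt_of_lt_of_le (trn_lt _)
      (Nat.pow_le_pow_right (by norm_num) (not_lt.1 hi)))]

/-! ### The cover -/

/-- The matrix `X` or its transpose with the sign `d` satisfies a pattern of the table. -/
def OKD (Q : ℕ → ℕ) (X d : ℕ) : Prop := ClOK Q X d ∨ ClOK Q (trn X) d

theorem clT_spec {Q : ℕ → ℕ} {X d c : ℕ} (h : clT Q X d c = true) : OKD Q X d := by
  rw [clT] at h
  rcases sel_cases h with h | h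
  · rw [fo_eq] at h
    exact Or.inl (clE_spec h)
  · rw [fo_eq, fo_eq] at h
    exact Or.inr (clE_spec h)

theorem clTK_spec {Q : ℕ → ℕ} {X C : ℕ} (h : clTK Q X C = true) :
    (OKD Q X 0 ∧ OKD Q X 1) ∧ OKD Q (cpl X) 0 ∧ OKD Q (cpl X) 1 := by
  rw [clTK, band_iff, band_iff, fo_eq, fo_eq, fo_eq, band_iff, fo_eq, fo_eq] at h
  exact ⟨⟨clT_spec h.1.1, clT_spec h.1.2⟩, clT_spec h.2.1, clT_spec h.2.2⟩

/-- All matrices of the table `K` from `a` to `b`. -/
def ClD (K Q : ℕ → ℕ) (a b : ℕ) : Prop := ∀ i, a ≤ i → i < b →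
  (OKD Q (K i) 0 ∧ OKD Q (K i) 1) ∧ OKD Q (cpl (K i)) 0 ∧ OKD Q (cpl (K i)) 1

theorem clsT_spec {K Q : ℕ → ℕ} {a C : ℕ} : ∀ {n : ℕ}, clsT K Q a C n = true →
    ∀ i < n, (OKD Q (K (a + i)) 0 ∧ OKD Q (K (a + i)) 1) ∧
      OKD Q (cpl (K (a + i))) 0 ∧ OKD Q (cpl (K (a + i))) 1
  | 0, _, i, hi => absurd hi (Nat.not_lt_zero i)
  | n + 1, h, i, hi => by
    have h' : band (clsT K Q a C n) (clTK Q (K (Nat.add a n))
      (Nat.land (Nat.shiftRight C (Nat.mul 192 n))
        6277101735386680763835789423207666416102355444464034512895)) = true := h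
    rw [band_iff] at h'
    rcases Nat.lt_succ_iff_lt_or_eq.1 hi with hi | rfl
    · exact clsT_spec h'.1 i hi
    · exact clTK_spec h'.2

theorem clsT_use {K Q : ℕ → ℕ} {a C n b : ℕ} (h : clsT K Q a C n = true)
    (hb : a + n = b) : ClD K Q a b := by
  intro i ha hi
  have := clsT_spec h (i - a) (by omega)
  rwa [show a + (i - a) = i by omega] at this

theorem ClD.append {K Q : ℕ → ℕ} {a b c : ℕ} (h : ClD K Q a b)
    (h' : ClD K Q b c) : ClD K Q a c := by
  intro i ha hi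
  rcases Nat.lt_or_ge i b with hb | hb
  · exact h i ha hb
  · exact h' i hb hi

theorem hit_of_okd {Q : ℕ → ℕ} {X : ℕ} {s : St36} (h : pk 6 s = X)
    (h0 : OKD Q X 0) (h1 : OKD Q X 1) : HitQ Q s ∨ HitQ Q (trS s) := by
  have hd : OKD Q X s.2.toNat := by
    cases s.2
    · exact h0
    · exact h1
  have key : ∀ {X' : ℕ} {s' : St36}, pk 6 s' = X' → ClOK Q X' s'.2.toNat → HitQ Q s' := by
    intro X' s' h hd
    subst h
    obtain ⟨p, hp, q, hq, i, h | ⟨hi, h⟩⟩ := hd
    · refine ⟨permOf p, permOf q, i, Or.inl ?_⟩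
      show enc _ &&& _ = _
      rw [enc_act s' hp hq]
      exact h
    · refine ⟨permOf p, permOf q, i, Or.inr ⟨hi, ?_⟩⟩
      show enc _ &&& _ = _
      rw [enc_act s' hp hq]
      exact h
  rcases hd with hd | hd
  · exact Or.inl (key h hd)
  · refine Or.inr (key (X' := trn X) ?_ hd)
    rw [pk_tr, h]

theorem hitD_of_act {Q : ℕ → ℕ} {ρ γ : Equiv.Perm (Fin 6)} {s : St36}
    (h : HitQ Q (actS ρ γ s) ∨ HitQ Q (trS (actS ρ γ s))) : HitQ Q s ∨ HitQ Q (trS s) := by
  rcases h with h | h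
  · exact Or.inl h.of_act
  · rw [trS_act] at h
    exact Or.inr h.of_act

/-- **Every state is covered**: it or its complement satisfies a simple pattern up to
permutations, or it or its transpose satisfies a pattern of the table. -/
theorem coverD {K Q : ℕ → ℕ} {n : ℕ} (hT : Lay 6 K n) (hc : ClD K Q 0 n)
    (s : St36) : THit s ∨ THit (fl s) ∨ HitQ Q s ∨ HitQ Q (trS s) := by
  by_cases h18 : ∑ k, rc s k ≤ 18
  · by_cases ht : THit s
    · exact Or.inl ht
    · obtain ⟨ρ, γ, -, i, hi, he⟩ := hT s h18 ht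
      have h := hc i (Nat.zero_le _) hi
      exact Or.inr (Or.inr (hitD_of_act (hit_of_okd he h.1.1 h.1.2)))
  · have h18' : ∑ k, rc (fl s) k ≤ 18 := by
      have := sum_rc_fl s
      omega
    by_cases ht : THit (fl s)
    · exact Or.inr (Or.inl ht)
    · obtain ⟨ρ, γ, -, i, hi, he⟩ := hT _ h18' ht
      have h := hc i (Nat.zero_le _) hi
      rw [fl_act] at he
      have he' : pk 6 (actS ρ γ s) = Pool.Agent.H27.Z12.CT.cpl (K i) := by rw [← he]; exact pk_fl _
      exact Or.inr (Or.inr (hitD_of_act (hit_of_okd he' h.2.1 h.2.2)))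

/-- **A chart and its transpose are not both bad**, from a table of excluded patterns. -/
theorem not_both_chart {K Q : ℕ → ℕ} {n : ℕ} (hT : Lay 6 K n) (hc : ClD K Q 0 n)
    (h2 : ∀ i, Nat.ble (Nat.succ i) 262144 = true → CX2 R0 (gM (Q i)) (gV (Q i)))
    (h1 : ∀ i, CX R0 (gM (Q i)) (gV (Q i))) (M : Fin 6 → Fin 6 → ℝ) (hM : ∀ i c, 0 < M i c) :
    ¬ (Bad (cf M) ∧ Bad (cf fun i c => M c i)) := by
  rintro ⟨hb, hb'⟩
  have hM' : ∀ i c, 0 < (fun i c => M c i) i c := fun i c => hM c i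
  have key : ∀ M : Fin 6 → Fin 6 → ℝ, Bad (cf M) → (∀ i c, 0 < M i c) → ¬ HitQ Q (stt M) := by
    rintro M hb hM ⟨ρ, γ, i, ha⟩
    rw [← stt_perm hb] at ha
    rcases ha with ha | ⟨hi, ha⟩
    · exact h1 i _ (bad_perm hb ρ γ) (fun i c => hM _ _) (maxOf0 _) ha
    · exact (h2 i hi).2 _ (bad_perm hb ρ γ) (fun i c => hM _ _) (maxOf0 _) ha
  rcases coverD hT hc (stt M) with ⟨ρ, γ, i, hi, h⟩ | ⟨ρ, γ, i, hi, h⟩ | h | h
  · exact (triv2 i hi).1.act hb hM ρ γ h
  · rw [fl_act] at h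
    exact (triv2 i hi).2.act hb hM ρ γ (sat_fl h)
  · exact key M hb hM h
  · rw [← stt_tr hb.1 hb'.1] at h
    exact key _ hb' hM' h

/-- **A configuration and its dual are not both bad**, from a table of excluded patterns. -/
theorem not_both_bad {K Q : ℕ → ℕ} {n : ℕ} (hT : Lay 6 K n) (hc : ClD K Q 0 n)
    (h2 : ∀ i, Nat.ble (Nat.succ i) 262144 = true → CX2 R0 (gM (Q i)) (gV (Q i)))
    (h1 : ∀ i, CX R0 (gM (Q i)) (gV (Q i))) {v w : Fin 12 → Fin 6 → ℝ} (hd : Dual v w) :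
    ¬ (Bad v ∧ Bad w) := by
  rintro ⟨hv, hw⟩
  obtain ⟨M, hM, hb, hb'⟩ := dual_chart hd hv hw
  exact not_both_chart hT hc h2 h1 M hM ⟨hb, hb'⟩

end Pool.Agent.H6.Z12
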