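import Pool.Agent.H28.Z12.UDefs
import Pool.Agent.H27.Z12.BMDefs

/-!
Kernel evaluation of the images of excluded patterns (MP_1e71f9_co): the entry of an image is
computed from the row and the permutations. Mask and value of a row are one number (37 bits each).
-/

set_option autoImplicit false

namespace Pool.Agent.H6.Z12.QC

open Pool.Agent.H28.Z12.Cov (band dj pr okG e32)
open Pool.Agent.H27.Z12.BM (CL fc)

/-- The inverse permutations, eighteen bits each. -/
def DtabI : Nat := nat_lit 0x8d116340d8c85630558ca16308d88176221d85076045d84276029d88b1620cd8435602d58531604cd89916260d85856065585a16068d61195942568895a06560a9590a54c19532252d09434652c29432a540b9510e52839422e52139414e541995162529894266521a9416a565415850d60c55911568c15a10d44475031d21474151d28474231d4cc15310d2c45433152d414350d45c15070d21c54171529c14270d6a115a80d66055885566215888d42175181d2a074285d22274189d4631508cd2235418d52a31428cd4e115380d2e05438552e214388d71115c40d70855c05570a15c08d50175421d31074445d30274429d50b1540cd3035442d53131444cd51915460d3185446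5531a14468d0d1b0b42c4c8b1306c0cab0b0ac681b1a22c650b1846c642b182ac08bb0a0ec443b102ec053b084ec099b0a62c458b1066c05ab086ac811ae142b888ae206b80aae10ab8c1aa322a8d0a634688c2a632a880baa10ea883a622e8813a614e8819aa162a898a6266881aa616a8054ac852b40cad112b08caca12b644a9832a614a59528684a5a3280cca8b12a4c4a533280d4a4b52805ca8872a41ca5172809ca4a7280a1aca82b460ad086b062ac88ab621a9982a6a0a5a868622a598a8063a888ea423a518e80a3a4a8e80e1a8b82a4e0a538680e2a4b8a8111acc42b508ad406b10aacc0ab701a9c22a710a5c468702a5c2a810ba8c0ea503a542e8113a4c4e8119a8c62a518a5466811aa4c6a82d510354c0cd50b1544cd11314c28570235c05570855c44571035c68d11a14c64551835465511854c29d10274c05d50875445d11074c2158c156308d8ca16340d8d11632c58833620d584b5604c585336060d89916268585a36061585956021d88176209d84a76041d8517608550e054b80d4e115388d0e214b8456a035a8156615588856623588cd0a314a8c54633508d506354885d0a074a81d46175089d0627482a50c294b0654c89534650d094b22568195a0a564a95842565195866509894a6254599506a505a9482e508394a0e544b9504e50539483150c454b10d4cc15350d0d414b30568435a11564c5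5850565435870d09c14a70545c35071505c54831d08474a11d44c75051d0547484e9113a0c2e8503a542ea103a8c0a970aa1c468710a5c06a708a9c2ab102acc06b508ad446b110acc6a911aa0c668518a5466a118a8c4298d1a232a88c2a6322a8c1aa30e988ba224e8853a600ea84baa022b881ae20ab84aae042b851ae0629899a226a885aa6062a859aa046c0d0b0b22c4c1b132ac0c2b0b06c688b1a42c651b180ac64ab182ec083b0a0ec44bb104ec053b0866c098b0a62c459b106ac05ab088a90e2a0b8684e0a5386a0e0a8b8296a1a1a8a8662a5882a661a9886b0a0aca82b461ad08ab062ac88e90a3a0a8e8463a508ea063a885290d4a0b3284c4a5332a0c4a8b12968ca1a528654a5812a64ca9832b084aca12b44cad052b054ac872909ca0a72845ca5072a05ca8875111d40c74851d05474a11d08c54171521c35070545c34270529c54b1150cc3435052d43531054cc55911560c35850565435a10568c1518cd4235488d506314a8cd0a374189d22275085d46074285d2a014b88d0e25438552e015384d4e015988d62255885566015a84d6a03540c550b14c4cd11354c0d510b34468531a15464d51854465531874c09d10a74445d31075405d50835c08570a15c44d71055c0557085610d580b3604c58533620c588b16168d81a56065585816264d8983630858ca16344d8d05630558c876109d80a76045d8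5076205d8889510e540b9484e505394a0e508b9416a521a95066545894266529894b0a50ca9434652d09530654c89590a560a95846565095a065688ad112b40cac852b054aca12b08ca8172a21ca5072845ca4272829ca8b12a0cca435282d4a531284cca9912a60ca58528654a5a12868ca118e9423a888ea063a0a8e90a3ac18ab222ad086b460ac286b2a0a0b8a90e2a8386a2e0a138694e0a198a9622a9886a660a1a8696a0a540e850ba0c4e9113a8c0ea10ba446a831aa14669518a8466a318acc0ab10aac446b310ad406b508a5c0a870aa1c469710a9c06a708aa10ea80ba604e8853a620e888ba216a981aaa066a858a22669898a630a88caa234698d0aa306a8c8ae10ab80aae046b850ae206b888b110ec40bb084ec053b0a0ec08bb016ac21ab1066c458b0266c298b0b0ac0cab0346c2d0b1306c4c8b190ac60ab1846c650b1a06c688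

def digI (p : Nat) : Nat := Nat.land (Nat.shiftRight DtabI (Nat.mul (nat_lit 18) p)) (nat_lit 262143)

/-- Six numbers. -/
inductive D6 where
  | mk : Nat → Nat → Nat → Nat → Nat → Nat → D6

/-- The digits of the inverse of permutation `p`. -/
def dc (p : Nat) : D6 :=
  D6.mk (dj (digI p) (nat_lit 0)) (dj (digI p) (nat_lit 3)) (dj (digI p) (nat_lit 6))
    (dj (digI p) (nat_lit 9)) (dj (digI p) (nat_lit 12)) (dj (digI p) (nat_lit 15))

/-- Six times the digits. -/
def dr (p : Nat) : D6 :=
  D6.mk (Nat.mul (nat_lit 6) (dj (digI p) (nat_lit 0))) (Nat.mul (nat_lit 6) (dj (digI p) (nat_lit 3)))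
    (Nat.mul (nat_lit 6) (dj (digI p) (nat_lit 6))) (Nat.mul (nat_lit 6) (dj (digI p) (nat_lit 9)))
    (Nat.mul (nat_lit 6) (dj (digI p) (nat_lit 12))) (Nat.mul (nat_lit 6) (dj (digI p) (nat_lit 15)))

/-- One column of both matrices. -/
def co (X d : Nat) : Nat := Nat.land (Nat.shiftRight X d) (nat_lit 149916396280485253185)

/-- One row of both matrices. -/
def ro (X d : Nat) : Nat := Nat.land (Nat.shiftRight X d) (nat_lit 8658654068799)

/-- Permute the columns: column `j` of the result is column `D_j`. -/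
noncomputable def cpm (D : D6) (X : Nat) : Nat :=
  @D6.rec (fun _ => Nat) (fun d0 d1 d2 d3 d4 d5 =>
    Nat.lor (Nat.lor (Nat.lor (co X d0) (Nat.shiftLeft (co X d1) (nat_lit 1)))
      (Nat.lor (Nat.shiftLeft (co X d2) (nat_lit 2)) (Nat.shiftLeft (co X d3) (nat_lit 3))))
      (Nat.lor (Nat.shiftLeft (co X d4) (nat_lit 4)) (Nat.shiftLeft (co X d5) (nat_lit 5)))) D

/-- Permute the rows: row `k` of the result is row `D_k`. -/
noncomputable def rpm (D : D6) (X : Nat) : Nat :=
  @D6.rec (fun _ => Nat) (fun d0 d1 d2 d3 d4 d5 =>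
    Nat.lor (Nat.lor (Nat.lor (ro X d0) (Nat.shiftLeft (ro X d1) (nat_lit 6)))
      (Nat.lor (Nat.shiftLeft (ro X d2) (nat_lit 12)) (Nat.shiftLeft (ro X d3) (nat_lit 18))))
      (Nat.lor (Nat.shiftLeft (ro X d4) (nat_lit 24)) (Nat.shiftLeft (ro X d5) (nat_lit 30)))) D

/-- Parity, at bit 73. -/
def ps (p : Nat) : Nat := Nat.shiftLeft (pr p) (nat_lit 73)

/-- The row `x` or its complement. -/
noncomputable def cpl (x f : Nat) : Nat :=
  @Bool.rec (fun _ => Nat) (Nat.xor x (Nat.shiftLeft (Nat.land x (nat_lit 137438953471)) (nat_lit 37)))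
    x (Nat.beq f (nat_lit 0))

/-- The image of `y` under `p, q`. -/
noncomputable def qe (p q y : Nat) : Nat :=
  Nat.lor (Nat.lor (rpm (dr q) (cpm (dc p) y)) (nat_lit 68719476736))
    (Nat.land (Nat.xor (Nat.xor y (ps p)) (ps q)) (nat_lit 9444732965739290427392))

/-- The image with the code `c`: `p`, `q` (10 bits each), complement, row after `o`. -/
noncomputable def qx (RT : Nat → Nat) (o c : Nat) : Nat :=
  fc (Nat.land c (nat_lit 1023)) fun p =>
    fc (Nat.land (Nat.shiftRight c (nat_lit 10)) (nat_lit 1023)) fun q =>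
      fc (Nat.add o (Nat.shiftRight c (nat_lit 21))) fun r =>
        qe p q (cpl (RT r) (Nat.land (Nat.shiftRight c (nat_lit 20)) (nat_lit 1)))

/-- Code `j` of the segment, 30 bits each. -/
def cd (C j : Nat) : Nat :=
  Nat.land (Nat.shiftRight C (Nat.mul (nat_lit 30) j)) (nat_lit 1073741823)

/-- Entry `i` modulo 1024 of the segment with base row `o`, codes `C`, `n` entries. -/
noncomputable def sge (RT : Nat → Nat) (o C n i : Nat) : Nat :=
  @Bool.rec (fun _ => Nat) (nat_lit 137438953472)
    (fc (cd C (Nat.land i (nat_lit 1023))) (qx RT o))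
    (Nat.ble (Nat.succ (Nat.land i (nat_lit 1023))) n)

/-- Tables of segments. -/
inductive QT where
  | em : QT
  | lf : Nat → Nat → Nat → QT
  | nd : Nat → QT → QT → QT

/-- A segment. -/
inductive SG where
  | mk : Nat → Nat → Nat → SG

/-- The segment `h`. -/
noncomputable def gt (t : QT) : Nat → SG :=
  @QT.rec (fun _ => Nat → SG) (fun _ => SG.mk (nat_lit 0) (nat_lit 0) (nat_lit 0))
    (fun o C n _ => SG.mk o C n)
    (fun b _ _ hA hB h => @Bool.rec (fun _ => SG) (hA h) (hB h)
      (Nat.beq (Nat.land (Nat.shiftRight h b) (nat_lit 1)) (nat_lit 1))) t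

/-- Entry `i` of the segment. -/
noncomputable def sgE (RT : Nat → Nat) (i : Nat) (s : SG) : Nat :=
  @SG.rec (fun _ => Nat) (fun o C n => sge RT o C n i) s

/-- Entry `i` of the table. -/
noncomputable def Qc (RT : Nat → Nat) (t : QT) (i : Nat) : Nat :=
  fc (Nat.shiftRight i (nat_lit 10)) fun h => sgE RT i (gt t h)

/-- Gap `k` of the list `S`, 12 bits each. -/
def gp (S k : Nat) : Nat := Nat.land (Nat.shiftRight S (Nat.mul (nat_lit 12) k)) (nat_lit 4095)

/-- The entries with the indices `b + S_(n-1), b + S_(n-1) + S_(n-2), ..` in front of the list. -/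
noncomputable def rdG (Q : Nat → Nat) (S n : Nat) (L : CL) : Nat → CL :=
  @Nat.rec (fun _ => Nat → CL) (fun _ => L)
    (fun k ih b => CL.cons (Q (Nat.add b (gp S k))) (ih (Nat.add b (gp S k)))) n

/-! ### Validity of the codes -/

/-- Evaluate the argument first. -/
noncomputable def fb (x : Nat) (f : Nat → Bool) : Bool :=
  @Nat.rec (fun _ => Bool) (f (nat_lit 0)) (fun n _ => f (Nat.succ n)) x

/-- `x` is the row `y`, or the row `y` without determinant sign with such a sign. -/
noncomputable def rwE (x y : Nat) : Bool :=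
  @Bool.rec (fun _ => Bool)
    (band (Nat.beq (Nat.land x (nat_lit 9444732965670570950655)) (Nat.land y (nat_lit 9444732965670570950655)))
      (Nat.beq (Nat.land (Nat.shiftRight y (nat_lit 36)) (nat_lit 1)) (nat_lit 0)))
    true (Nat.beq (Nat.land x (nat_lit 18889465931478580854783))
      (Nat.land y (nat_lit 18889465931478580854783)))

/-- Row `r` of the table is row `j` of the block table `P`; the units `E_j` are a mask. -/
noncomputable def rwO (RT : Nat → Nat) (P E r j : Nat) : Bool :=
  band (rwE (RT r) (Nat.shiftRight P (Nat.mul (nat_lit 80) j)))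
    (Nat.ble (Nat.succ (e32 E j)) (nat_lit 536870912))

/-- The same without units. -/
noncomputable def rwP (RT : Nat → Nat) (P r j : Nat) : Bool :=
  rwE (RT r) (Nat.shiftRight P (Nat.mul (nat_lit 80) j))

/-- The code `c` is an image of a relaxed row of the block `P, E` whose first row is row `ob`. -/
noncomputable def vX1 (RT : Nat → Nat) (P E nP ob o c : Nat) : Bool :=
  fb (Nat.add o (Nat.shiftRight c (nat_lit 21))) fun r => fb (Nat.sub r ob) fun j =>
    band (band (Nat.ble ob r) (Nat.ble (Nat.succ j) nP)) (band (rwO RT P E r j)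
      (band (band (Nat.ble (Nat.succ (Nat.land c (nat_lit 1023))) (nat_lit 720))
        (Nat.ble (Nat.succ (Nat.land (Nat.shiftRight c (nat_lit 10)) (nat_lit 1023))) (nat_lit 720)))
        (okG (e32 E j) (Nat.land c (nat_lit 2097151)))))

/-- The codes `a, .., a + n - 1` of the segment. -/
noncomputable def vX (RT : Nat → Nat) (P E nP ob o C a n : Nat) : Bool :=
  @Nat.rec (fun _ => Bool) true (fun e ih => band ih (vX1 RT P E nP ob o (cd C (Nat.add a e)))) n

/-- No complement. -/
noncomputable def vY1 (RT : Nat → Nat) (P E nP ob o c : Nat) : Bool :=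
  band (Nat.beq (Nat.land (Nat.shiftRight c (nat_lit 20)) (nat_lit 1)) (nat_lit 0))
    (vX1 RT P E nP ob o c)

noncomputable def vY (RT : Nat → Nat) (P E nP ob o C a n : Nat) : Bool :=
  @Nat.rec (fun _ => Bool) true (fun e ih => band ih (vY1 RT P E nP ob o (cd C (Nat.add a e)))) n

/-- All images, for rows excluded everywhere with their complements. -/
noncomputable def vZ1 (RT : Nat → Nat) (P nP ob o c : Nat) : Bool :=
  fb (Nat.add o (Nat.shiftRight c (nat_lit 21))) fun r => fb (Nat.sub r ob) fun j =>
    band (band (Nat.ble ob r) (Nat.ble (Nat.succ j) nP)) (band (rwP RT P r j)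
      (band (Nat.ble (Nat.succ (Nat.land c (nat_lit 1023))) (nat_lit 720))
        (Nat.ble (Nat.succ (Nat.land (Nat.shiftRight c (nat_lit 10)) (nat_lit 1023))) (nat_lit 720))))

noncomputable def vZ (RT : Nat → Nat) (P nP ob o C a n : Nat) : Bool :=
  @Nat.rec (fun _ => Bool) true (fun e ih => band ih (vZ1 RT P nP ob o (cd C (Nat.add a e)))) n

/-- All images without complement. -/
noncomputable def vW1 (RT : Nat → Nat) (P nP ob o c : Nat) : Bool :=
  band (Nat.beq (Nat.land (Nat.shiftRight c (nat_lit 20)) (nat_lit 1)) (nat_lit 0))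
    (vZ1 RT P nP ob o c)

noncomputable def vW (RT : Nat → Nat) (P nP ob o C a n : Nat) : Bool :=
  @Nat.rec (fun _ => Bool) true (fun e ih => band ih (vW1 RT P nP ob o (cd C (Nat.add a e)))) n

/-- The identity and both reversals. -/
noncomputable def vK1 (RT : Nat → Nat) (P nP ob o c : Nat) : Bool :=
  band (@Bool.rec (fun _ => Bool) (Nat.beq (Nat.land c (nat_lit 2097151)) (nat_lit 694657)) true
      (Nat.beq (Nat.land c (nat_lit 2097151)) (nat_lit 0)))
    (vZ1 RT P nP ob o c)

noncomputable def vK (RT : Nat → Nat) (P nP ob o C a n : Nat) : Bool :=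
  @Nat.rec (fun _ => Bool) true (fun e ih => band ih (vK1 RT P nP ob o (cd C (Nat.add a e)))) n

end Pool.Agent.H6.Z12.QC
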