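import Mathlib
import Pool.Agent.H28.Z12.Cover
import Pool.Agent.H6.Z12.QCDefs

/-!
Bits of the computed images (MP_1e71f9_co).
-/

set_option autoImplicit false

namespace Pool.Agent.H6.Z12.QC

open Pool.Agent.H28.Z12.Cov (band dj dig dgt dgt_lt pr pr_lt permOf permOf_val par_permOf)
open Pool.Agent.H77.Z12

/-- Digit `j` of the inverse of permutation `p`. -/
def dgI (p j : ℕ) : ℕ := dj (digI p) (3 * j)

theorem dgI_lt : ∀ p < 720, ∀ j < 6, dgI p j < 6 := by decide +kernel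
theorem dgI_dgt : ∀ p < 720, ∀ j < 6, dgI p (dgt p j) = j := by decide +kernel

theorem cc1 : ∀ k < 6, ∀ l < 6, ∀ j < 6, j ≤ 6 * k + l →
    (149916396280485253185 : ℕ).testBit (6 * k + l - j) = decide (l = j) := by decide +kernel

theorem cc2 : ∀ k < 6, ∀ l < 6, ∀ j < 6,
    (149916396280485253185 : ℕ).testBit (37 + 6 * k + l - j) = decide (l = j) := by decide +kernel

theorem rr1 : ∀ k < 6, ∀ l < 6, ∀ j < 6, 6 * j ≤ 6 * k + l →
    (8658654068799 : ℕ).testBit (6 * k + l - 6 * j) = decide (k = j) := by decide +kernel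

theorem rr2 : ∀ k < 6, ∀ l < 6, ∀ j < 6,
    (8658654068799 : ℕ).testBit (37 + 6 * k + l - 6 * j) = decide (k = j) := by decide +kernel

theorem rr3 : ∀ j < 6, (8658654068799 : ℕ).testBit (73 - 6 * j) = false := by decide +kernel

theorem co_tb1 (X d : ℕ) {k l j : ℕ} (hk : k < 6) (hl : l < 6) (hj : j < 6) :
    ((co X d) <<< j).testBit (6 * k + l) = (decide (l = j) && X.testBit (6 * k + d)) := by
  have e : co X d = (X >>> d) &&& 149916396280485253185 := rfl
  rw [Nat.testBit_shiftLeft, e, Nat.testBit_and, Nat.testBit_shiftRight]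
  by_cases h : j ≤ 6 * k + l
  · rw [cc1 k hk l hl j hj h, decide_eq_true (show 6 * k + l ≥ j from h), Bool.true_and]
    by_cases hlj : l = j
    · subst hlj
      rw [decide_eq_true rfl, Bool.and_true, Bool.true_and]
      congr 1
      omega
    · rw [decide_eq_false hlj, Bool.and_false, Bool.false_and]
  · rw [decide_eq_false (show ¬ 6 * k + l ≥ j from h), Bool.false_and, decide_eq_false (by omega),
      Bool.false_and]

theorem co_tb2 (X d : ℕ) {k l j : ℕ} (hk : k < 6) (hl : l < 6) (hj : j < 6) :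
    ((co X d) <<< j).testBit (37 + 6 * k + l) = (decide (l = j) && X.testBit (37 + 6 * k + d)) := by
  have e : co X d = (X >>> d) &&& 149916396280485253185 := rfl
  rw [Nat.testBit_shiftLeft, e, Nat.testBit_and, Nat.testBit_shiftRight, cc2 k hk l hl j hj,
    decide_eq_true (by omega : 37 + 6 * k + l ≥ j), Bool.true_and]
  by_cases hlj : l = j
  · subst hlj
    rw [decide_eq_true rfl, Bool.and_true, Bool.true_and]
    congr 1
    omega
  · rw [decide_eq_false hlj, Bool.and_false, Bool.false_and]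

theorem ro_tb1 (X d : ℕ) {k l j : ℕ} (hk : k < 6) (hl : l < 6) (hj : j < 6) :
    ((ro X d) <<< (6 * j)).testBit (6 * k + l) = (decide (k = j) && X.testBit (d + l)) := by
  have e : ro X d = (X >>> d) &&& 8658654068799 := rfl
  rw [Nat.testBit_shiftLeft, e, Nat.testBit_and, Nat.testBit_shiftRight]
  by_cases h : 6 * j ≤ 6 * k + l
  · rw [rr1 k hk l hl j hj h, decide_eq_true (show 6 * k + l ≥ 6 * j from h), Bool.true_and]
    by_cases hlj : k = j
    · subst hlj
      rw [decide_eq_true rfl, Bool.and_true, Bool.true_and]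
      congr 1
      omega
    · rw [decide_eq_false hlj, Bool.and_false, Bool.false_and]
  · rw [decide_eq_false (show ¬ 6 * k + l ≥ 6 * j from h), Bool.false_and,
      decide_eq_false (by omega), Bool.false_and]

theorem ro_tb2 (X d : ℕ) {k l j : ℕ} (hk : k < 6) (hl : l < 6) (hj : j < 6) :
    ((ro X d) <<< (6 * j)).testBit (37 + 6 * k + l) =
      (decide (k = j) && X.testBit (37 + d + l)) := by
  have e : ro X d = (X >>> d) &&& 8658654068799 := rfl
  rw [Nat.testBit_shiftLeft, e, Nat.testBit_and, Nat.testBit_shiftRight, rr2 k hk l hl j hj,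
    decide_eq_true (by omega : 37 + 6 * k + l ≥ 6 * j), Bool.true_and]
  by_cases hlj : k = j
  · subst hlj
    rw [decide_eq_true rfl, Bool.and_true, Bool.true_and]
    congr 1
    omega
  · rw [decide_eq_false hlj, Bool.and_false, Bool.false_and]

theorem ro_tb3 (X d : ℕ) {j : ℕ} (hj : j < 6) : ((ro X d) <<< (6 * j)).testBit 73 = false := by
  have e : ro X d = (X >>> d) &&& 8658654068799 := rfl
  rw [Nat.testBit_shiftLeft, e, Nat.testBit_and, rr3 j hj, Bool.and_false, Bool.and_false]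

/-- Digit `j` of six. -/
def d6 : D6 → ℕ → ℕ
  | D6.mk d0 d1 d2 d3 d4 d5, j => match j with
    | 0 => d0 | 1 => d1 | 2 => d2 | 3 => d3 | 4 => d4 | _ => d5

theorem or6b (a b c d e f n : ℕ) : (Nat.lor (Nat.lor (Nat.lor a b) (Nat.lor c d))
    (Nat.lor e f)).testBit n = (a.testBit n || b.testBit n || (c.testBit n || d.testBit n) ||
      (e.testBit n || f.testBit n)) := by
  have h : ∀ x y : ℕ, Nat.lor x y = x ||| y := fun _ _ => rfl
  rw [h, h, h, h, h, Nat.testBit_or, Nat.testBit_or, Nat.testBit_or, Nat.testBit_or,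
    Nat.testBit_or]

theorem cpm_eq (D : D6) (X : ℕ) : cpm D X = Nat.lor (Nat.lor (Nat.lor ((co X (d6 D 0)) <<< 0)
    ((co X (d6 D 1)) <<< 1)) (Nat.lor ((co X (d6 D 2)) <<< 2) ((co X (d6 D 3)) <<< 3)))
    (Nat.lor ((co X (d6 D 4)) <<< 4) ((co X (d6 D 5)) <<< 5)) := by
  cases D
  rfl

theorem rpm_eq (D : D6) (X : ℕ) : rpm D X = Nat.lor (Nat.lor (Nat.lor ((ro X (d6 D 0)) <<< (6 * 0))
    ((ro X (d6 D 1)) <<< (6 * 1))) (Nat.lor ((ro X (d6 D 2)) <<< (6 * 2)) ((ro X (d6 D 3)) <<< (6 * 3))))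
    (Nat.lor ((ro X (d6 D 4)) <<< (6 * 4)) ((ro X (d6 D 5)) <<< (6 * 5))) := by
  cases D
  rfl

theorem cpm_tb1 (D : D6) (X : ℕ) {k l : ℕ} (hk : k < 6) (hl : l < 6) :
    (cpm D X).testBit (6 * k + l) = X.testBit (6 * k + d6 D l) := by
  rw [cpm_eq, or6b, co_tb1 _ _ hk hl (by norm_num), co_tb1 _ _ hk hl (by norm_num),
    co_tb1 _ _ hk hl (by norm_num), co_tb1 _ _ hk hl (by norm_num),
    co_tb1 _ _ hk hl (by norm_num), co_tb1 _ _ hk hl (by norm_num)]
  interval_cases l <;> simp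

theorem cpm_tb2 (D : D6) (X : ℕ) {k l : ℕ} (hk : k < 6) (hl : l < 6) :
    (cpm D X).testBit (37 + 6 * k + l) = X.testBit (37 + 6 * k + d6 D l) := by
  rw [cpm_eq, or6b, co_tb2 _ _ hk hl (by norm_num), co_tb2 _ _ hk hl (by norm_num),
    co_tb2 _ _ hk hl (by norm_num), co_tb2 _ _ hk hl (by norm_num),
    co_tb2 _ _ hk hl (by norm_num), co_tb2 _ _ hk hl (by norm_num)]
  interval_cases l <;> simp

theorem rpm_tb1 (D : D6) (X : ℕ) {k l : ℕ} (hk : k < 6) (hl : l < 6) :
    (rpm D X).testBit (6 * k + l) = X.testBit (d6 D k + l) := by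
  rw [rpm_eq, or6b, ro_tb1 _ _ hk hl (by norm_num), ro_tb1 _ _ hk hl (by norm_num),
    ro_tb1 _ _ hk hl (by norm_num), ro_tb1 _ _ hk hl (by norm_num),
    ro_tb1 _ _ hk hl (by norm_num), ro_tb1 _ _ hk hl (by norm_num)]
  interval_cases k <;> simp

theorem rpm_tb2 (D : D6) (X : ℕ) {k l : ℕ} (hk : k < 6) (hl : l < 6) :
    (rpm D X).testBit (37 + 6 * k + l) = X.testBit (37 + d6 D k + l) := by
  rw [rpm_eq, or6b, ro_tb2 _ _ hk hl (by norm_num), ro_tb2 _ _ hk hl (by norm_num),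
    ro_tb2 _ _ hk hl (by norm_num), ro_tb2 _ _ hk hl (by norm_num),
    ro_tb2 _ _ hk hl (by norm_num), ro_tb2 _ _ hk hl (by norm_num)]
  interval_cases k <;> simp

theorem rpm_tb3 (D : D6) (X : ℕ) : (rpm D X).testBit 73 = false := by
  rw [rpm_eq, or6b, ro_tb3 _ _ (by norm_num), ro_tb3 _ _ (by norm_num),
    ro_tb3 _ _ (by norm_num), ro_tb3 _ _ (by norm_num), ro_tb3 _ _ (by norm_num),
    ro_tb3 _ _ (by norm_num)]
  rfl

theorem d6_dc (p : ℕ) {j : ℕ} (hj : j < 6) : d6 (dc p) j = dgI p j := by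
  interval_cases j <;> rfl

theorem d6_dr (p : ℕ) {j : ℕ} (hj : j < 6) : d6 (dr p) j = 6 * dgI p j := by
  interval_cases j <;> rfl

/-- The permuted matrices. -/
theorem rc_tb1 {p q : ℕ} (y : ℕ) (hq : q < 720) {k l : ℕ} (hk : k < 6) (hl : l < 6) :
    (rpm (dr q) (cpm (dc p) y)).testBit (6 * k + l) = y.testBit (6 * dgI q k + dgI p l) := by
  rw [rpm_tb1 _ _ hk hl, d6_dr _ hk, cpm_tb1 _ _ (dgI_lt q hq k hk) hl, d6_dc _ hl]

theorem rc_tb2 {p q : ℕ} (y : ℕ) (hq : q < 720) {k l : ℕ} (hk : k < 6) (hl : l < 6) :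
    (rpm (dr q) (cpm (dc p) y)).testBit (37 + 6 * k + l) =
      y.testBit (37 + 6 * dgI q k + dgI p l) := by
  rw [rpm_tb2 _ _ hk hl, d6_dr _ hk, cpm_tb2 _ _ (dgI_lt q hq k hk) hl, d6_dc _ hl]

theorem qe_eq (p q y : ℕ) : qe p q y = (rpm (dr q) (cpm (dc p) y) ||| 2 ^ 36) |||
    (((y ^^^ ps p) ^^^ ps q) &&& 2 ^ 73) := rfl

theorem qe_tb1 {p q : ℕ} (y : ℕ) (hq : q < 720) {k l : ℕ} (hk : k < 6) (hl : l < 6) :
    (qe p q y).testBit (6 * k + l) = y.testBit (6 * dgI q k + dgI p l) := by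
  rw [qe_eq, Nat.testBit_or, Nat.testBit_or, Nat.testBit_and, Nat.testBit_two_pow,
    Nat.testBit_two_pow, rc_tb1 y hq hk hl, decide_eq_false (by omega : ¬ 36 = 6 * k + l),
    decide_eq_false (by omega : ¬ 73 = 6 * k + l), Bool.or_false, Bool.and_false, Bool.or_false]

theorem qe_tb2 {p q : ℕ} (y : ℕ) (hq : q < 720) {k l : ℕ} (hk : k < 6) (hl : l < 6) :
    (qe p q y).testBit (37 + 6 * k + l) = y.testBit (37 + 6 * dgI q k + dgI p l) := by
  rw [qe_eq, Nat.testBit_or, Nat.testBit_or, Nat.testBit_and, Nat.testBit_two_pow,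
    Nat.testBit_two_pow, rc_tb2 y hq hk hl, decide_eq_false (by omega : ¬ 36 = 37 + 6 * k + l),
    decide_eq_false (by omega : ¬ 73 = 37 + 6 * k + l), Bool.or_false, Bool.and_false,
    Bool.or_false]

theorem qe_tb36 (p q y : ℕ) : (qe p q y).testBit 36 = true := by
  rw [qe_eq, Nat.testBit_or, Nat.testBit_or, Nat.testBit_two_pow, decide_eq_true rfl, Bool.or_true,
    Bool.true_or]

theorem ps_tb {p : ℕ} : (ps p).testBit 73 = decide (pr p = 1) := by
  have e : ps p = (pr p) <<< 73 := rfl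
  rw [e, Nat.testBit_shiftLeft, decide_eq_true (le_refl _), Bool.true_and, Nat.sub_self]
  have h := pr_lt p
  interval_cases pr p <;> decide

theorem qe_tb73 (p q y : ℕ) : (qe p q y).testBit 73 =
    xor (xor (y.testBit 73) (decide (pr p = 1))) (decide (pr q = 1)) := by
  rw [qe_eq, Nat.testBit_or, Nat.testBit_or, Nat.testBit_and, Nat.testBit_two_pow,
    Nat.testBit_two_pow, rpm_tb3, Nat.testBit_xor, Nat.testBit_xor, ps_tb, ps_tb,
    decide_eq_true rfl, Bool.and_true, decide_eq_false (by norm_num : ¬ 36 = 73), Bool.or_false,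
    Bool.false_or]

/-- The complement. -/
theorem cpl_lo (x f : ℕ) {i : ℕ} (hi : i < 37) : (cpl x f).testBit i = x.testBit i := by
  unfold cpl
  rcases Nat.beq f 0 with _ | _
  · have e : (Nat.xor x (Nat.shiftLeft (Nat.land x 137438953471) 37)).testBit i =
      (x ^^^ ((x &&& 137438953471) <<< 37)).testBit i := rfl
    refine e.trans ?_
    rw [Nat.testBit_xor, Nat.testBit_shiftLeft, decide_eq_false (by omega), Bool.false_and,
      Bool.xor_false]
  · rfl

theorem cpl_hi (x f : ℕ) (hf : f < 2) {i : ℕ} (hi : i < 37) : (cpl x f).testBit (37 + i) =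
    xor (x.testBit (37 + i)) (f.testBit 0 && x.testBit i) := by
  interval_cases f
  · have e : cpl x 0 = x := rfl
    rw [e, Nat.zero_testBit, Bool.false_and, Bool.xor_false]
  · have e : cpl x 1 = x ^^^ ((x &&& (2 ^ 37 - 1)) <<< 37) := rfl
    rw [e, Nat.testBit_xor, Nat.testBit_shiftLeft, decide_eq_true (by omega : 37 + i ≥ 37),
      Bool.true_and, Nat.add_sub_cancel_left, Nat.testBit_and, Nat.testBit_two_pow_sub_one,
      decide_eq_true hi, Bool.and_true, Nat.testBit_one_zero, Bool.true_and]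

theorem gM_tb (g i : ℕ) : (Pool.Agent.H28.Z12.Cov.gM g).testBit i = (g.testBit i && decide (i < 37)) := by
  have e : Pool.Agent.H28.Z12.Cov.gM g = g &&& (2 ^ 37 - 1) := rfl
  rw [e, Nat.testBit_and, Nat.testBit_two_pow_sub_one]

theorem gV_tb (g i : ℕ) : (Pool.Agent.H28.Z12.Cov.gV g).testBit i =
    (g.testBit (37 + i) && decide (i < 37)) := by
  have e : Pool.Agent.H28.Z12.Cov.gV g = (g >>> 37) &&& (2 ^ 37 - 1) := rfl
  rw [e, Nat.testBit_and, Nat.testBit_two_pow_sub_one, Nat.testBit_shiftRight]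

/-- **The image of a row.** -/
theorem qe_sat {p q x f : ℕ} (hp : p < 720) (hq : q < 720) (hf : f < 2) (s : St36)
    (hs : Pool.Agent.H77.Z12.Sat (Pool.Agent.H28.Z12.Cov.gM (qe p q (cpl x f)))
      (Pool.Agent.H28.Z12.Cov.gV (qe p q (cpl x f))) s) :
    Pool.Agent.H77.Z12.Sat (Pool.Agent.H28.Z12.Cov.gM x)
      (Nat.xor (Pool.Agent.H28.Z12.Cov.gV x) (Nat.mul f (Pool.Agent.H28.Z12.Cov.gM x)))
      (actS (permOf p) (permOf q) s) := by
  have hxor : ∀ i < 37, (Nat.xor (Pool.Agent.H28.Z12.Cov.gV x)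
      (Nat.mul f (Pool.Agent.H28.Z12.Cov.gM x))).testBit i =
        xor (x.testBit (37 + i)) (f.testBit 0 && x.testBit i) := by
    intro i hi
    have e : Nat.xor (Pool.Agent.H28.Z12.Cov.gV x) (Nat.mul f (Pool.Agent.H28.Z12.Cov.gM x)) =
      Pool.Agent.H28.Z12.Cov.gV x ^^^ (f * Pool.Agent.H28.Z12.Cov.gM x) := rfl
    rw [e, Nat.testBit_xor, gV_tb, decide_eq_true hi, Bool.and_true]
    interval_cases f
    · rw [zero_mul, Nat.zero_testBit, Nat.zero_testBit, Bool.false_and]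
    · rw [one_mul, gM_tb, decide_eq_true hi, Bool.and_true, Nat.testBit_one_zero, Bool.true_and]
  constructor
  · intro k j hkj
    have hk := (permOf q k).2
    have hj := (permOf p j).2
    have b1 : 6 * (k : ℕ) + j < 37 := by omega
    rw [gM_tb, decide_eq_true b1, Bool.and_true] at hkj
    have e1 := qe_tb1 (p := p) (q := q) (cpl x f) hq hk hj
    have e2 := qe_tb2 (p := p) (q := q) (cpl x f) hq hk hj
    rw [permOf_val hp, permOf_val hq, dgI_dgt q hq k k.2, dgI_dgt p hp j j.2] at e1 e2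
    have b2 : 6 * dgt q k + dgt p j < 37 := by
      rw [← permOf_val hp, ← permOf_val hq]
      omega
    have h1 : (Pool.Agent.H28.Z12.Cov.gM (qe p q (cpl x f))).testBit
        (6 * (permOf q k : ℕ) + (permOf p j : ℕ)) = true := by
      rw [gM_tb, permOf_val hp, permOf_val hq, e1, cpl_lo _ _ b1, hkj, decide_eq_true b2]
      rfl
    have h2 := hs.1 _ _ h1
    show s.1 (permOf q k) (permOf p j) = _
    rw [h2, hxor _ b1, gV_tb, permOf_val hp, permOf_val hq, decide_eq_true b2, Bool.and_true,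
      ← Nat.add_assoc, e2, Nat.add_assoc, cpl_hi _ _ hf b1]
  · intro h36
    rw [gM_tb, decide_eq_true (by norm_num : 36 < 37), Bool.and_true] at h36
    have h3 := hs.2 (by rw [gM_tb, qe_tb36]; rfl)
    show xor s.2 (xor (par (permOf p)) (par (permOf q))) = _
    rw [h3, par_permOf hp, par_permOf hq, hxor 36 (by norm_num), gV_tb,
      decide_eq_true (by norm_num : 36 < 37), Bool.and_true,
      (by norm_num : 37 + 36 = 73), qe_tb73, (by norm_num : 73 = 37 + 36),
      cpl_hi _ _ hf (by norm_num : 36 < 37)]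
    cases x.testBit (37 + 36) <;> cases f.testBit 0 && x.testBit 36 <;>
      cases decide (pr p = 1) <;> cases decide (pr q = 1) <;> rfl

end Pool.Agent.H6.Z12.QC
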