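import Mathlib
import Pool.Agent.H28.Z12.Top
import Pool.Agent.H27.Z12.BMEx
import Pool.Agent.H6.Z12.QCBits

/-!
Soundness of the computed images (MP_1e71f9_co): all entries of the table are excluded.
-/

set_option autoImplicit false

namespace Pool.Agent.H6.Z12.QC

open Pool.Agent.H77.Z12 Pool.Agent.H13.Z12 Pool.Agent.H64.Z12 Pool.Agent.H28.Z12
open Pool.Agent.H28.Z12.Cov Pool.Agent.H26.Z12 Pool.Agent.H32.Z12
open Pool.Agent.H27.Z12.BM (OKQ ex_never AllQ CL)

theorem fcm_eq (x : ℕ) (f : ℕ → ℕ) : Pool.Agent.H27.Z12.BM.fc x f = f x := by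
  cases x <;> rfl

theorem fb_eq (x : ℕ) (f : ℕ → Bool) : fb x f = f x := by
  cases x <;> rfl

theorem qx_eq (RT : ℕ → ℕ) (o c : ℕ) : qx RT o c = qe (Nat.land c 1023)
    (Nat.land (Nat.shiftRight c 10) 1023)
    (cpl (RT (Nat.add o (Nat.shiftRight c 21))) (Nat.land (Nat.shiftRight c 20) 1)) := by
  rw [qx, fcm_eq, fcm_eq, fcm_eq]

theorem xor_tb (x f : ℕ) (hf : f < 2) {i : ℕ} (hi : i < 37) :
    (Nat.xor (gV x) (Nat.mul f (gM x))).testBit i =
      xor (x.testBit (37 + i)) (f.testBit 0 && x.testBit i) := by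
  have e : Nat.xor (gV x) (Nat.mul f (gM x)) = gV x ^^^ (f * gM x) := rfl
  rw [e, Nat.testBit_xor, gV_tb, decide_eq_true hi, Bool.and_true]
  interval_cases f
  · rw [zero_mul, Nat.zero_testBit, Nat.zero_testBit, Bool.false_and]
  · rw [one_mul, gM_tb, decide_eq_true hi, Bool.and_true, Nat.testBit_one_zero, Bool.true_and]

theorem ngM_eq (P j : ℕ) : ngM P j = gM (P >>> (80 * j)) := rfl

theorem ngV_eq (P j : ℕ) : ngV P j = gV (P >>> (80 * j)) := by
  have e1 : ngV P j = (P >>> (80 * j + 37)) &&& 137438953471 := rfl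
  have e2 : gV (P >>> (80 * j)) = ((P >>> (80 * j)) >>> 37) &&& 137438953471 := rfl
  rw [e1, e2, Nat.shiftRight_add]

theorem ml_tb : ∀ i < 36, (9444732965670570950655 : ℕ).testBit i = true ∧ (9444732965670570950655 : ℕ).testBit (37 + i) = true := by
  decide +kernel

theorem rwE_spec {x y : ℕ} (h : rwE x y = true) :
    (∀ i < 36, x.testBit i = y.testBit i ∧ x.testBit (37 + i) = y.testBit (37 + i)) ∧
      (y.testBit 36 = true → x.testBit 36 = true ∧ x.testBit 73 = y.testBit 73) := by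
  unfold rwE at h
  rcases hb : Nat.beq (Nat.land x 18889465931478580854783) (Nat.land y 18889465931478580854783)
    with _ | _
  · rw [hb] at h
    have h' : band (Nat.beq (Nat.land x 9444732965670570950655) (Nat.land y 9444732965670570950655))
      (Nat.beq (Nat.land (Nat.shiftRight y 36) 1) 0) = true := h
    rw [band_iff, beq_iff, beq_iff] at h'
    obtain ⟨h1, h2⟩ := h'
    constructor
    · intro i hi
      have h3 : ∀ j, (x &&& 9444732965670570950655).testBit j = (y &&& 9444732965670570950655).testBit j := fun j => by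
        have : x &&& 9444732965670570950655 = y &&& 9444732965670570950655 := h1
        rw [this]
      obtain ⟨m1, m2⟩ := ml_tb i hi
      have h4 := h3 i
      have h5 := h3 (37 + i)
      rw [Nat.testBit_and, Nat.testBit_and, m1, Bool.and_true, Bool.and_true] at h4
      rw [Nat.testBit_and, Nat.testBit_and, m2, Bool.and_true, Bool.and_true] at h5
      exact ⟨h4, h5⟩
    · intro h36
      exfalso
      have e1 : y.testBit 36 = (y >>> 36).testBit 0 := by rw [Nat.testBit_shiftRight, Nat.add_zero]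
      have e2 : (y >>> 36) &&& 1 = 0 := h2
      rw [Nat.and_one_is_mod] at e2
      rw [e1, Nat.testBit_zero, e2] at h36
      exact absurd h36 (by decide)
  · have h1 : x &&& (2 ^ 74 - 1) = y &&& (2 ^ 74 - 1) := Nat.eq_of_beq_eq_true hb
    have h3 : ∀ j < 74, x.testBit j = y.testBit j := fun j hj => by
      have : (x &&& (2 ^ 74 - 1)).testBit j = (y &&& (2 ^ 74 - 1)).testBit j := by rw [h1]
      rw [Nat.testBit_and, Nat.testBit_and, Nat.testBit_two_pow_sub_one, decide_eq_true hj,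
        Bool.and_true, Bool.and_true] at this
      exact this
    exact ⟨fun i hi => ⟨h3 i (by omega), h3 _ (by omega)⟩,
      fun h36 => ⟨by rw [h3 36 (by norm_num)]; exact h36, h3 73 (by norm_num)⟩⟩

theorem rw_sat {x P j f : ℕ} (hf : f < 2) (h : rwE x (Nat.shiftRight P (Nat.mul 80 j)) = true)
    (s : St36) (hs : Pool.Agent.H77.Z12.Sat (gM x) (Nat.xor (gV x) (Nat.mul f (gM x))) s) :
    Pool.Agent.H77.Z12.Sat (ngM P j) (Nat.xor (ngV P j) (Nat.mul f (ngM P j))) s := by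
  obtain ⟨h1, h2⟩ := rwE_spec h
  change ∀ i < 36, x.testBit i = (P >>> (80 * j)).testBit i ∧
    x.testBit (37 + i) = (P >>> (80 * j)).testBit (37 + i) at h1
  change (P >>> (80 * j)).testBit 36 = true → x.testBit 36 = true ∧
    x.testBit 73 = (P >>> (80 * j)).testBit 73 at h2
  rw [ngM_eq, ngV_eq]
  constructor
  · intro k l hkl
    have b1 : 6 * (k : ℕ) + l < 36 := by omega
    have b2 : 6 * (k : ℕ) + l < 37 := by omega
    obtain ⟨e1, e2⟩ := h1 _ b1
    rw [gM_tb, decide_eq_true b2, Bool.and_true] at hkl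
    have h3 := hs.1 k l (by rw [gM_tb, e1, hkl, decide_eq_true b2]; rfl)
    rw [h3, xor_tb _ _ hf b2, xor_tb _ _ hf b2, e1, e2]
  · intro h36
    rw [gM_tb, decide_eq_true (by norm_num : 36 < 37), Bool.and_true] at h36
    obtain ⟨e1, e2⟩ := h2 h36
    have h3 := hs.2 (by rw [gM_tb, e1]; rfl)
    rw [h3, xor_tb _ _ hf (by norm_num : 36 < 37), xor_tb _ _ hf (by norm_num : 36 < 37),
      (by norm_num : 37 + 36 = 73), e1, e2, h36]

/-- The image satisfies the assumption of the image lemmas. -/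
theorem qx_hs {RT : ℕ → ℕ} {P j o c : ℕ} (hp : Nat.land c 1023 < 720)
    (hq : Nat.land (Nat.shiftRight c 10) 1023 < 720)
    (h : rwE (RT (Nat.add o (Nat.shiftRight c 21))) (Nat.shiftRight P (Nat.mul 80 j)) = true)
    (s : St36)
    (hs : Pool.Agent.H77.Z12.Sat (gM (qx RT o c)) (gV (qx RT o c)) s) :
    Pool.Agent.H77.Z12.Sat (ngM P j)
      (Nat.xor (ngV P j) (Nat.mul (Nat.land (Nat.shiftRight c 20) 1) (ngM P j)))
      (actS (permOf (Nat.land c 1023)) (permOf (Nat.land (Nat.shiftRight c 10) 1023)) s) := by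
  rw [qx_eq] at hs
  exact rw_sat (lt2 _) h _ (qe_sat hp hq (lt2 _) s hs)

variable {R : St36 → ℕ} {RT : ℕ → ℕ}

theorem vX1_spec {P E nP ob o c : ℕ}
    (hP : ∀ i < nP, RRefX (ngM P i) (ngV P i) (zL Z29 (e32 E i) V29) 0 0)
    (h : vX1 RT P E nP ob o c = true) : Ex R (gM (qx RT o c)) (gV (qx RT o c)) := by
  rw [vX1, fb_eq, fb_eq, band_iff, band_iff, band_iff, band_iff, band_iff, ble_iff, ble_iff,
    ble_iff, ble_iff] at h
  obtain ⟨⟨-, hj⟩, hrw, ⟨hp, hq⟩, hg⟩ := h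
  rw [rwO, band_iff, ble_iff] at hrw
  obtain ⟨hrow, he⟩ := hrw
  obtain ⟨l1, l2, l3, l4⟩ := land21 c
  have hg' := okG_spec (by rw [l1]; exact hp) (by rw [l2]; exact hq) hg
  rw [l1, l2, l3] at hg'
  have hr := hP _ hj
  have he' : e32 E (Nat.sub (Nat.add o (Nat.shiftRight c 21)) ob) < 2 ^ 29 := he
  have hs := qx_hs hp hq hrow
  rcases hg' with ⟨e0, ht⟩ | ⟨e0, ht⟩
  · rw [e0, xor_mul_zero] at hs
    exact ex_tr0 hr he' ht hs
  · rw [e0, xor_mul_one] at hs
    exact ex_tr1 hr he' ht hs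

theorem vY1_spec {P E nP ob o c : ℕ}
    (hP : ∀ i < nP, RefX (ngM P i) (ngV P i) (zL Z29 (e32 E i) V29) 0 0)
    (h : vY1 RT P E nP ob o c = true) : Ex R (gM (qx RT o c)) (gV (qx RT o c)) := by
  rw [vY1, band_iff, beq_iff, vX1, fb_eq, fb_eq, band_iff, band_iff, band_iff, band_iff, band_iff,
    ble_iff, ble_iff, ble_iff, ble_iff] at h
  obtain ⟨h0, ⟨-, hj⟩, hrw, ⟨hp, hq⟩, hg⟩ := h
  rw [rwO, band_iff, ble_iff] at hrw
  obtain ⟨hrow, he⟩ := hrw
  obtain ⟨l1, l2, l3, l4⟩ := land21 c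
  have hg' := okG_spec (by rw [l1]; exact hp) (by rw [l2]; exact hq) hg
  rw [l1, l2, l3] at hg'
  have hr := hP _ hj
  have he' : e32 E (Nat.sub (Nat.add o (Nat.shiftRight c 21)) ob) < 2 ^ 29 := he
  have hs := qx_hs hp hq hrow
  rcases hg' with ⟨e0, ht⟩ | ⟨e0, ht⟩
  · rw [e0, xor_mul_zero] at hs
    exact ex_trY hr he' ht hs
  · rw [h0] at e0
    exact absurd e0 (by norm_num)

theorem vZ1_hs {P nP ob o c : ℕ} (h : vZ1 RT P nP ob o c = true) :
    ∃ j < nP, ∀ s, Pool.Agent.H77.Z12.Sat (gM (qx RT o c)) (gV (qx RT o c)) s →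
    Pool.Agent.H77.Z12.Sat (ngM P j)
      (Nat.xor (ngV P j) (Nat.mul (Nat.land (Nat.shiftRight c 20) 1) (ngM P j)))
      (actS (permOf (Nat.land c 1023)) (permOf (Nat.land (Nat.shiftRight c 10) 1023)) s) := by
  rw [vZ1, fb_eq, fb_eq, band_iff, band_iff, band_iff, band_iff, ble_iff, ble_iff, ble_iff,
    ble_iff] at h
  obtain ⟨⟨-, hj⟩, hrw, hp, hq⟩ := h
  rw [rwP] at hrw
  exact ⟨_, hj, qx_hs hp hq hrw⟩

theorem vZ1_spec (hR : ∀ (ρ γ : Equiv.Perm (Fin 6)) (s : St36), R (actS ρ γ s) = R s)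
    {P nP ob o c : ℕ} (hP : ∀ i < nP, CG2 R (ngM P i) (ngV P i))
    (h : vZ1 RT P nP ob o c = true) : Ex R (gM (qx RT o c)) (gV (qx RT o c)) := by
  obtain ⟨j, hj, hs⟩ := vZ1_hs h
  have hr := hP _ hj
  rcases land1 (Nat.shiftRight c 20) with e0 | e0
  · rw [e0, xor_mul_zero] at hs
    intro M hb hM hx hmax ha
    have h1 := hs _ (sat_of_agr' ha)
    exact (hr.1 _ h1 (by rw [hR]; exact hmax)).act hb hM _ _ h1
  · rw [e0, xor_mul_one] at hs
    intro M hb hM hx hmax ha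
    have h1 := hs _ (sat_of_agr' ha)
    exact (hr.2 _ h1 (by rw [hR]; exact hmax)).act hb hM _ _ h1

theorem vW1_spec (hR : ∀ (ρ γ : Equiv.Perm (Fin 6)) (s : St36), R (actS ρ γ s) = R s)
    {P nP ob o c : ℕ} (hP : ∀ i < nP, CG R (ngM P i) (ngV P i))
    (h : vW1 RT P nP ob o c = true) : Ex R (gM (qx RT o c)) (gV (qx RT o c)) := by
  rw [vW1, band_iff, beq_iff] at h
  obtain ⟨h0, h⟩ := h
  obtain ⟨j, hj, hs⟩ := vZ1_hs h
  rw [h0, xor_mul_zero] at hs
  have hr := hP _ hj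
  intro M hb hM hx hmax ha
  have h1 := hs _ (sat_of_agr' ha)
  exact (hr _ h1 (by rw [hR]; exact hmax)).act hb hM _ _ h1

theorem vK1_spec (hR : ∀ (ρ γ : Equiv.Perm (Fin 6)) (s : St36), R (actS ρ γ s) = R s)
    {P nP ob o c : ℕ} (hP : ∀ i < nP, CS R (ngM P i) (ngV P i))
    (h : vK1 RT P nP ob o c = true) : Ex R (gM (qx RT o c)) (gV (qx RT o c)) := by
  rw [vK1, band_iff] at h
  obtain ⟨hg, h⟩ := h
  obtain ⟨j, hj, him⟩ := vZ1_hs h
  have hr := hP _ hj
  have hs := code_split c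
  have b1 : Nat.land c 1023 < 1024 := by
    have : Nat.land c 1023 = c &&& 1023 := rfl
    rw [this]
    exact lt_of_le_of_lt Nat.and_le_right (by norm_num)
  have b2 : Nat.land (Nat.shiftRight c 10) 1023 < 1024 := by
    have : Nat.land (Nat.shiftRight c 10) 1023 = (Nat.shiftRight c 10) &&& 1023 := rfl
    rw [this]
    exact lt_of_le_of_lt Nat.and_le_right (by norm_num)
  have b3 := land1 (Nat.shiftRight c 20)
  rcases hz : Nat.beq (Nat.land c 2097151) 0 with _ | _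
  · rw [hz] at hg
    have h1 : Nat.land c 2097151 = 694657 := Nat.eq_of_beq_eq_true hg
    have e1 : Nat.land c 1023 = 385 := by omega
    have e2 : Nat.land (Nat.shiftRight c 10) 1023 = 678 := by omega
    have e3 : Nat.land (Nat.shiftRight c 20) 1 = 0 := by omega
    rw [e1, e2, e3, xor_mul_zero] at him
    refine ex_rev hR hr fun s hs => ?_
    have h2 := him s hs
    rw [perm385, perm678] at h2
    exact h2
  · have h1 : Nat.land c 2097151 = 0 := Nat.eq_of_beq_eq_true hz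
    have e1 : Nat.land c 1023 = 0 := by omega
    have e2 : Nat.land (Nat.shiftRight c 10) 1023 = 0 := by omega
    have e3 : Nat.land (Nat.shiftRight c 20) 1 = 0 := by omega
    rw [e1, e2, e3, xor_mul_zero] at him
    have h2 : ∀ s, Pool.Agent.H77.Z12.Sat (gM (qx RT o c)) (gV (qx RT o c)) s →
        Pool.Agent.H77.Z12.Sat (ngM P j) (ngV P j) s := by
      intro s hs
      have h3 := him s hs
      rw [perm0, act_one] at h3
      exact h3
    refine ex_of_cs fun s hs hmax => ?_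
    intro M hb hM hx hs'
    exact hr s (h2 s hs) hmax M hb hM hx (h2 _ hs')

/-- The first `k` entries of a segment are excluded. -/
def HS (R : St36 → ℕ) (RT : ℕ → ℕ) (o C k : ℕ) : Prop :=
  ∀ j < k, Ex R (gM (qx RT o (cd C j))) (gV (qx RT o (cd C j)))

theorem HS.zero {o C : ℕ} : HS R RT o C 0 := fun _ h => absurd h (Nat.not_lt_zero _)

theorem HS.snoc {o C k : ℕ} (h : HS R RT o C k)
    (hk : Ex R (gM (qx RT o (cd C k))) (gV (qx RT o (cd C k)))) : HS R RT o C (k + 1) :=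
  fun i hi => by
    rcases Nat.lt_succ_iff_lt_or_eq.1 hi with hi | rfl
    · exact h i hi
    · exact hk

theorem vX_spec {P E nP ob o C a : ℕ}
    (hP : ∀ i < nP, RRefX (ngM P i) (ngV P i) (zL Z29 (e32 E i) V29) 0 0) (hb : HS R RT o C a) :
    ∀ {n : ℕ}, vX RT P E nP ob o C a n = true → HS R RT o C (a + n)
  | 0, _ => hb
  | n + 1, h => by
    have h' : band (vX RT P E nP ob o C a n) (vX1 RT P E nP ob o (cd C (a + n))) = true := h
    rw [band_iff] at h'
    exact (vX_spec hP hb h'.1).snoc (vX1_spec hP h'.2)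

theorem vY_spec {P E nP ob o C a : ℕ}
    (hP : ∀ i < nP, RefX (ngM P i) (ngV P i) (zL Z29 (e32 E i) V29) 0 0) (hb : HS R RT o C a) :
    ∀ {n : ℕ}, vY RT P E nP ob o C a n = true → HS R RT o C (a + n)
  | 0, _ => hb
  | n + 1, h => by
    have h' : band (vY RT P E nP ob o C a n) (vY1 RT P E nP ob o (cd C (a + n))) = true := h
    rw [band_iff] at h'
    exact (vY_spec hP hb h'.1).snoc (vY1_spec hP h'.2)

theorem vZ_spec (hR : ∀ (ρ γ : Equiv.Perm (Fin 6)) (s : St36), R (actS ρ γ s) = R s)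
    {P nP ob o C a : ℕ} (hP : ∀ i < nP, CG2 R (ngM P i) (ngV P i)) (hb : HS R RT o C a) :
    ∀ {n : ℕ}, vZ RT P nP ob o C a n = true → HS R RT o C (a + n)
  | 0, _ => hb
  | n + 1, h => by
    have h' : band (vZ RT P nP ob o C a n) (vZ1 RT P nP ob o (cd C (a + n))) = true := h
    rw [band_iff] at h'
    exact (vZ_spec hR hP hb h'.1).snoc (vZ1_spec hR hP h'.2)

theorem vW_spec (hR : ∀ (ρ γ : Equiv.Perm (Fin 6)) (s : St36), R (actS ρ γ s) = R s)
    {P nP ob o C a : ℕ} (hP : ∀ i < nP, CG R (ngM P i) (ngV P i)) (hb : HS R RT o C a) :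
    ∀ {n : ℕ}, vW RT P nP ob o C a n = true → HS R RT o C (a + n)
  | 0, _ => hb
  | n + 1, h => by
    have h' : band (vW RT P nP ob o C a n) (vW1 RT P nP ob o (cd C (a + n))) = true := h
    rw [band_iff] at h'
    exact (vW_spec hR hP hb h'.1).snoc (vW1_spec hR hP h'.2)

theorem vK_spec (hR : ∀ (ρ γ : Equiv.Perm (Fin 6)) (s : St36), R (actS ρ γ s) = R s)
    {P nP ob o C a : ℕ} (hP : ∀ i < nP, CS R (ngM P i) (ngV P i)) (hb : HS R RT o C a) :
    ∀ {n : ℕ}, vK RT P nP ob o C a n = true → HS R RT o C (a + n)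
  | 0, _ => hb
  | n + 1, h => by
    have h' : band (vK RT P nP ob o C a n) (vK1 RT P nP ob o (cd C (a + n))) = true := h
    rw [band_iff] at h'
    exact (vK_spec hR hP hb h'.1).snoc (vK1_spec hR hP h'.2)

/-- All segments of the table are excluded. -/
def OKT (R : St36 → ℕ) (RT : ℕ → ℕ) : QT → Prop
  | QT.em => True
  | QT.lf o C n => HS R RT o C n
  | QT.nd _ a b => OKT R RT a ∧ OKT R RT b

theorem OKT.em : OKT R RT QT.em := trivial

theorem OKT.lf {o C n : ℕ} (h : HS R RT o C n) : OKT R RT (QT.lf o C n) := h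

theorem OKT.nd {a b : QT} (s : ℕ) (ha : OKT R RT a) (hb : OKT R RT b) :
    OKT R RT (QT.nd s a b) := ⟨ha, hb⟩

theorem sge_ok {o C n : ℕ} (h : HS R RT o C n) (i : ℕ) :
    Ex R (gM (sge RT o C n i)) (gV (sge RT o C n i)) := by
  unfold sge
  rcases hb : Nat.ble (Nat.succ (Nat.land i 1023)) n with _ | _
  · exact ex_never
  · show Ex R (gM (Pool.Agent.H27.Z12.BM.fc (cd C (Nat.land i 1023)) (qx RT o)))
      (gV (Pool.Agent.H27.Z12.BM.fc (cd C (Nat.land i 1023)) (qx RT o)))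
    rw [fcm_eq]
    exact h _ (Nat.le_of_ble_eq_true hb)

theorem sgE_ok (h i : ℕ) : ∀ t : QT, OKT R RT t →
    Ex R (gM (sgE RT i (gt t h))) (gV (sgE RT i (gt t h)))
  | QT.em, _ => sge_ok (RT := RT) (o := 0) (C := 0) (n := 0) HS.zero i
  | QT.lf o C n, ht => sge_ok (o := o) (C := C) (n := n) ht i
  | QT.nd s a b, ht => by
    have e : gt (QT.nd s a b) h = @Bool.rec (fun _ => SG) (gt a h) (gt b h)
      (Nat.beq (Nat.land (Nat.shiftRight h s) 1) 1) := rfl
    rw [e]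
    rcases Nat.beq (Nat.land (Nat.shiftRight h s) 1) 1 with _ | _
    · exact sgE_ok h i a ht.1
    · exact sgE_ok h i b ht.2

/-- **All entries of the table are excluded.** -/
theorem okq {t : QT} (h : OKT R RT t) : OKQ R (Qc RT t) := fun i => by
  rw [Qc, fcm_eq]
  exact sgE_ok _ i t h

/-- Lists of entries. -/
theorem allQ_rdG {Q : ℕ → ℕ} {S : ℕ} {L : CL} (hL : AllQ Q L) :
    ∀ n b, AllQ Q (rdG Q S n L b)
  | 0, _ => hL
  | n + 1, b => ⟨⟨Nat.add b (gp S n), rfl⟩, allQ_rdG hL n _⟩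

end Pool.Agent.H6.Z12.QC
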