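import Mathlib
import Pool.Agent.H6.Z12.Dual
import Pool.Agent.H77.Z12.Final

/-!
Either a projective transformation onto convex position or a Radon partition with tolerance one
(MP_1e71f9_co).
-/

set_option autoImplicit false

namespace Pool.Agent.H6.Z12

open Finset Matrix Pool.Agent.H67.Nu Pool.Agent.H77.Z12

/-- A Radon partition with tolerance one: the points can be divided into two classes so that the
convex hulls of the classes still meet when any one point is removed. -/
def Tolerant {n d : ℕ} (x : Fin n → Fin d → ℝ) : Prop :=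
  ∃ A : Set (Fin n), ∀ i, (convexHull ℝ (x '' {k | k ∈ A ∧ k ≠ i}) ∩
    convexHull ℝ (x '' {k | k ∉ A ∧ k ≠ i})).Nonempty

/-- The signs of the exchange of the two halves. -/
def sw0 : Fin 12 → Bool := Fin.addCases (m := 6) (n := 6) (fun _ => false) fun _ => true

theorem sw0_ra (a : Fin 6) : sw0 (ra a) = false := Fin.addCases_left _

theorem sw0_cb (a : Fin 6) : sw0 (cb a) = true := Fin.addCases_right _

theorem sg_beq (a b : Bool) : sg (a == b) = sg a * sg b := by
  cases a <;> cases b <;> simp [sg]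

/-- Functionals on the transposed chart are dependencies of the chart. -/
theorem dep_chart (M : Fin 6 → Fin 6 → ℝ) (y : Fin 6 → ℝ) (k : Fin 6) :
    ∑ j, (sg (sw0 j) * (y ⬝ᵥ cf (fun i c => M c i) (sw j))) * cf M j k = 0 := by
  rw [sum12]
  have h1 : ∀ b, sg (sw0 (ra b)) * (y ⬝ᵥ cf (fun i c => M c i) (sw (ra b))) * cf M (ra b) k =
      if k = b then -∑ i, y i * M b i else 0 := by
    intro b
    rw [sw0_ra, sw_ra, cf_cb, cf_ra, Pi.single_apply]
    by_cases h : k = b
    · rw [if_pos h, if_pos h, dotProduct]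
      simp [sg]
    · rw [if_neg h, if_neg h, mul_zero]
  have h2 : ∀ a, sg (sw0 (cb a)) * (y ⬝ᵥ cf (fun i c => M c i) (sw (cb a))) * cf M (cb a) k =
      y a * M k a := by
    intro a
    rw [sw0_cb, sw_cb, cf_cb, cf_ra, dotProduct_single]
    simp [sg]
  simp only [h1, h2]
  rw [Finset.sum_ite_eq, if_pos (Finset.mem_univ _)]
  ring

/-- The transposed chart is in general position. -/
theorem gen_tr {M : Fin 6 → Fin 6 → ℝ} (h : Gen (cf M)) : Gen (cf fun i c => M c i) := by
  classical
  intro f hf h0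
  obtain ⟨y, hy, hy0⟩ := Matrix.exists_mulVec_eq_zero_iff.2 h0
  have hz : ∀ i, y ⬝ᵥ cf (fun i c => M c i) (f i) = 0 := fun i => by
    rw [dotProduct_comm]
    exact congrFun hy0 i
  -- the complement
  let F : Finset (Fin 12) := Finset.univ.image f
  have hF : F.card = 6 := by
    rw [Finset.card_image_of_injective _ hf, Finset.card_univ, Fintype.card_fin]
  have hFc : Fᶜ.card = 6 := by
    rw [Finset.card_compl, Fintype.card_fin, hF]
  let e : Fin 6 ≃ (Fᶜ : Finset (Fin 12)) := (Finset.equivFinOfCardEq hFc).symm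
  have h1 := h (fun i => sw.symm (e i : Fin 12)) fun a b hab =>
    e.injective (Subtype.ext (sw.symm.injective hab))
  refine h1 (Matrix.exists_vecMul_eq_zero_iff.1
    ⟨fun i => sg (sw0 (sw.symm (e i : Fin 12))) * (y ⬝ᵥ cf (fun i c => M c i) (e i : Fin 12)),
      fun hall => hy ?_, ?_⟩)
  · -- the vector of values vanishes everywhere
    have h2 : ∀ j, y ⬝ᵥ cf (fun i c => M c i) j = 0 := by
      intro j
      by_cases hj : j ∈ F
      · obtain ⟨i, -, rfl⟩ := Finset.mem_image.1 hj
        exact hz i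
      · have h3 := congrFun hall (e.symm ⟨j, Finset.mem_compl.2 hj⟩)
        simp only [Equiv.apply_symm_apply, Pi.zero_apply] at h3
        exact (mul_eq_zero.1 h3).resolve_left (sg_ne_zero _)
    funext a
    have h4 := h2 (ra a)
    rw [cf_ra, dotProduct_single, mul_one] at h4
    exact h4
  · funext k
    have h5 := dep_chart M y k
    rw [← Equiv.sum_comp sw.symm] at h5
    simp only [Equiv.apply_symm_apply] at h5
    rw [← Finset.sum_add_sum_compl F, Finset.sum_eq_zero, zero_add] at h5
    · rw [Matrix.vecMul, dotProduct]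
      rw [← Finset.sum_coe_sort Fᶜ, ← e.sum_comp] at h5
      exact h5
    · intro j hj
      obtain ⟨i, -, rfl⟩ := Finset.mem_image.1 hj
      rw [hz i, mul_zero, zero_mul]

/-- Dependencies of all sign vectors next to a given one. -/
def Deps {n r : ℕ} (v : Fin n → Fin r → ℝ) (t : Fin n → Bool) : Prop :=
  ∃ c : Fin n → ℝ, (∀ k, 0 < sg (t k) * c k) ∧ ∀ a, ∑ k, c k * v k a = 0

/-- A dependency vanishing at one place only. -/
theorem deps_cut {n r : ℕ} {v : Fin n → Fin r → ℝ} {t : Fin n → Bool} (h : Deps v t) {i : Fin n}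
    (hi : Deps v (Function.update t i (!t i))) :
    ∃ c : Fin n → ℝ, c i = 0 ∧ (∀ k, k ≠ i → 0 < sg (t k) * c k) ∧
      ∀ a, ∑ k, c k * v k a = 0 := by
  obtain ⟨c, hc, hc0⟩ := h
  obtain ⟨e, he, he0⟩ := hi
  have h1 : 0 < -(sg (t i) * e i) := by
    have := he i
    rw [Function.update_self] at this
    cases ht : t i <;> rw [ht] at this <;> simp [sg] at this ⊢ <;> exact this
  refine ⟨fun k => -(sg (t i) * e i) * c k + (sg (t i) * c i) * e k, by ring, fun k hk => ?_,
    fun a => ?_⟩
  · have h2 := he k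
    rw [Function.update_of_ne hk] at h2
    have h3 : sg (t k) * (-(sg (t i) * e i) * c k + (sg (t i) * c i) * e k) =
        -(sg (t i) * e i) * (sg (t k) * c k) + (sg (t i) * c i) * (sg (t k) * e k) := by ring
    rw [h3]
    exact add_pos (mul_pos h1 (hc k)) (mul_pos (hc i) h2)
  · have h4 : ∀ k, (-(sg (t i) * e i) * c k + (sg (t i) * c i) * e k) * v k a =
        -(sg (t i) * e i) * (c k * v k a) + (sg (t i) * c i) * (e k * v k a) := fun k => by ring
    simp only [h4]
    rw [Finset.sum_add_distrib, ← Finset.mul_sum, ← Finset.mul_sum, hc0, he0, mul_zero, mul_zero,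
      add_zero]

/-- The convex hulls of the two classes meet after the removal of `i`. -/
theorem meet_of_dep {n d : ℕ} {x : Fin n → Fin d → ℝ} {t : Fin n → Bool} {i : Fin n}
    {c : Fin n → ℝ} (hn : ∃ k, k ≠ i) (hi : c i = 0) (hc : ∀ k, k ≠ i → 0 < sg (t k) * c k)
    (h : ∀ a, ∑ k, c k * hom x k a = 0) :
    (convexHull ℝ (x '' {k | k ∈ {k | t k = true} ∧ k ≠ i}) ∩
      convexHull ℝ (x '' {k | k ∉ {k | t k = true} ∧ k ≠ i})).Nonempty := by
  classical
  let P : Finset (Fin n) := (Finset.univ.erase i).filter fun k => t k = true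
  let N : Finset (Fin n) := (Finset.univ.erase i).filter fun k => ¬ t k = true
  have hsplit : ∀ f : Fin n → ℝ, f i = 0 → ∑ k, f k = 0 → ∑ k ∈ P, f k = ∑ k ∈ N, -f k := by
    intro f hf hs
    rw [← Finset.add_sum_erase _ _ (Finset.mem_univ i), hf, zero_add,
      ← Finset.sum_filter_add_sum_filter_not _ (fun k => t k = true)] at hs
    rw [Finset.sum_neg_distrib]
    linarith
  have hP : ∀ k ∈ P, 0 < c k := by
    intro k hk
    obtain ⟨h1, h2⟩ := Finset.mem_filter.1 hk
    have h3 := hc k (Finset.ne_of_mem_erase h1)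
    rw [h2] at h3
    simpa [sg] using h3
  have hN : ∀ k ∈ N, 0 < -c k := by
    intro k hk
    obtain ⟨h1, h2⟩ := Finset.mem_filter.1 hk
    have h3 := hc k (Finset.ne_of_mem_erase h1)
    have h4 : t k = false := by simpa using h2
    rw [h4] at h3
    simpa [sg] using h3
  have hs : ∑ k ∈ P, c k = ∑ k ∈ N, -c k := by
    refine hsplit c hi ?_
    have := h 0
    simpa [hom] using this
  have hpos : 0 < ∑ k ∈ P, c k := by
    obtain ⟨k, hk⟩ := hn
    by_cases ht : t k = true
    · exact Finset.sum_pos hP ⟨k, Finset.mem_filter.2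
        ⟨Finset.mem_erase.2 ⟨hk, Finset.mem_univ _⟩, ht⟩⟩
    · rw [hs]
      exact Finset.sum_pos hN ⟨k, Finset.mem_filter.2
        ⟨Finset.mem_erase.2 ⟨hk, Finset.mem_univ _⟩, ht⟩⟩
  have hx : ∀ a, ∑ k ∈ P, c k * x k a = ∑ k ∈ N, -c k * x k a := by
    intro a
    have h1 := hsplit (fun k => c k * x k a) (by simp [hi]) (by
      have := h a.succ
      simpa [hom] using this)
    rw [h1]
    exact Finset.sum_congr rfl fun k _ => by ring
  refine ⟨P.centerMass c x, Finset.centerMass_mem_convexHull P (fun k hk => (hP k hk).le) hpos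
    fun k hk => ?_, ?_⟩
  · obtain ⟨h1, h2⟩ := Finset.mem_filter.1 hk
    exact ⟨k, ⟨h2, Finset.ne_of_mem_erase h1⟩, rfl⟩
  · have e : P.centerMass c x = N.centerMass (fun k => -c k) x := by
      rw [Finset.centerMass, Finset.centerMass, hs]
      congr 1
      funext a
      rw [Finset.sum_apply, Finset.sum_apply]
      simp only [Pi.smul_apply, smul_eq_mul]
      exact hx a
    rw [e]
    refine Finset.centerMass_mem_convexHull N (fun k hk => (hN k hk).le) (hs ▸ hpos)
      fun k hk => ?_
    obtain ⟨h1, h2⟩ := Finset.mem_filter.1 hk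
    exact ⟨k, ⟨h2, Finset.ne_of_mem_erase h1⟩, rfl⟩

theorem tolerant_of_deps {n d : ℕ} (hn : 2 ≤ n) {x : Fin n → Fin d → ℝ} {t : Fin n → Bool}
    (h : Deps (hom x) t) (hi : ∀ i, Deps (hom x) (Function.update t i (!t i))) :
    Tolerant x := by
  refine ⟨{k | t k = true}, fun i => ?_⟩
  obtain ⟨c, h1, h2, h3⟩ := deps_cut h (hi i)
  have : Nontrivial (Fin n) := Fin.nontrivial_iff_two_le.2 hn
  exact meet_of_dep (exists_ne i) h1 h2 h3

/-- A complete cell of the transposed chart gives dependencies of the given vectors. -/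
theorem deps_of_complete {M : Fin 6 → Fin 6 → ℝ} {v : Fin 12 → Fin 6 → ℝ}
    {A : Matrix (Fin 6) (Fin 6) ℝ} {π : Fin 12 ≃ Fin 12} {ε : Fin 12 → Bool}
    (hrel : ∀ j, sg (ε j) • v (π j) = cf M j ᵥ* A) {s : Fin 12 → Bool}
    (h : Complete (cf fun i c => M c i) s) :
    ∃ t : Fin 12 → Bool, Deps v t ∧ ∀ i, Deps v (Function.update t i (!t i)) := by
  have key : ∀ s : Fin 12 → Bool, Tope (cf fun i c => M c i) s →
      Deps v fun k => s (sw (π.symm k)) == (sw0 (π.symm k) == ε (π.symm k)) := by
    rintro s ⟨y, hy⟩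
    refine ⟨fun k => sg (sw0 (π.symm k)) * (y ⬝ᵥ cf (fun i c => M c i) (sw (π.symm k))) *
      sg (ε (π.symm k)), fun k => ?_, fun a => ?_⟩
    · rw [sg_beq, sg_beq]
      have h1 := hy (sw (π.symm k))
      have h2 := sg_mul_self (sw0 (π.symm k))
      have h3 := sg_mul_self (ε (π.symm k))
      calc (0 : ℝ) < sg (s (sw (π.symm k))) * (y ⬝ᵥ cf (fun i c => M c i) (sw (π.symm k))) := h1
        _ = (sg (sw0 (π.symm k)) * sg (sw0 (π.symm k))) *
            (sg (ε (π.symm k)) * sg (ε (π.symm k))) *
            (sg (s (sw (π.symm k))) * (y ⬝ᵥ cf (fun i c => M c i) (sw (π.symm k)))) := by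
              rw [h2, h3, one_mul, one_mul]
        _ = _ := by ring
    · rw [← Equiv.sum_comp π]
      simp only [Equiv.symm_apply_apply]
      have h4 : ∀ j, sg (ε j) * v (π j) a = ∑ b, cf M j b * A b a := by
        intro j
        have := congrFun (hrel j) a
        rw [Pi.smul_apply, smul_eq_mul] at this
        rw [this]
        rfl
      have h5 : ∀ j, sg (sw0 j) * (y ⬝ᵥ cf (fun i c => M c i) (sw j)) * sg (ε j) * v (π j) a =
          ∑ b, (sg (sw0 j) * (y ⬝ᵥ cf (fun i c => M c i) (sw j))) * cf M j b * A b a := by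
        intro j
        rw [mul_assoc _ (sg (ε j)), h4, Finset.mul_sum]
        exact Finset.sum_congr rfl fun b _ => by ring
      simp only [h5]
      rw [Finset.sum_comm]
      refine Finset.sum_eq_zero fun b _ => ?_
      rw [← Finset.sum_mul, dep_chart, zero_mul]
  refine ⟨_, key s h.1, fun i => ?_⟩
  have h6 := key _ (h.2 (sw (π.symm i)))
  convert h6 using 1
  funext k
  by_cases hk : k = i
  · subst hk
    rw [Function.update_self, Function.update_self]
    cases s (sw (π.symm k)) <;> cases sw0 (π.symm k) <;> cases ε (π.symm k) <;> rfl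
  · rw [Function.update_of_ne hk, Function.update_of_ne]
    intro h7
    exact hk (π.symm.injective (sw.injective h7))

/-- **Twelve points in general position in `ℝ^5`** either can be mapped by a permissible
projective transformation onto the vertices of a polytope, or have a Radon partition with
tolerance one. -/
theorem mappable_or_tolerant
    (hnb : ∀ M : Fin 6 → Fin 6 → ℝ, (∀ i c, 0 < M i c) →
      ¬ (Bad (cf M) ∧ Bad (cf fun i c => M c i)))
    (x : Fin 12 → Fin 5 → ℝ) (hx : GenPos x) : Mappable x ∨ Tolerant x := by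
  by_contra hc
  rw [not_or] at hc
  have hb : Bad (hom x) := ⟨gen_hom hx, fun s hs => hc.1 (mappable_of_complete x s hs)⟩
  obtain ⟨M, A, π, ε, hM, hA, hrel⟩ := exists_chart_rel (r := 6) (m := 6) (hom x) hb.1
    (by norm_num) (by norm_num)
  have hb1 : Bad (cf M) := hb.transfer hA hrel
  refine hnb M hM ⟨hb1, gen_tr hb1.1, fun s hs => ?_⟩
  obtain ⟨t, h1, h2⟩ := deps_of_complete (v := hom x) hrel hs
  exact hc.2 (tolerant_of_deps (by norm_num) h1 h2)

end Pool.Agent.H6.Z12
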